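import Mathlib
import Pool.Agent.H332R2.CastLem

/-! Hankel determinants of `B_{2m}/(2m)!` modulo a prime. -/

set_option autoImplicit false

open Finset PowerSeries Pool.Agent.H332R2

namespace Pool.Agent.X148.RegPerm

variable {p : ℕ} [hp : Fact p.Prime]

/-- inverse factorial mod p -/
noncomputable def fi (p : ℕ) (k : ℕ) : ZMod p := ((k.factorial : ℕ) : ZMod p)⁻¹

lemma pade {d : ℕ} (hd : 2 * d + 2 ≤ p) (a : ℕ → ZMod p)
    (h : ∀ m, d < m → m ≤ 2 * d + 1 → ∑ j ∈ range (d + 1), a j * fi p (m - j) = 0) :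
    ∀ j ≤ d, a j = 0 := by
  -- the polynomial
  set f : Polynomial (ZMod p) := ∑ j ∈ range (d + 1), Polynomial.C (a j) * descPochhammer (ZMod p) j with hf
  have hdeg : f.degree < ((d + 1 : ℕ) : WithBot ℕ) := by
    rw [hf]
    refine lt_of_le_of_lt (Polynomial.degree_sum_le _ _) ?_
    rw [Finset.sup_lt_iff (WithBot.bot_lt_coe _)]
    intro j hj
    rw [mem_range] at hj
    rw [← Polynomial.smul_eq_C_mul]
    refine lt_of_le_of_lt (Polynomial.degree_smul_le _ _) ?_
    refine lt_of_le_of_lt (Polynomial.degree_le_natDegree) ?_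
    rw [descPochhammer_natDegree]
    exact_mod_cast hj
  have hev : ∀ m : ℕ, f.eval ((m : ℕ) : ZMod p) = ∑ j ∈ range (d + 1), a j * ((m.descFactorial j : ℕ) : ZMod p) := by
    intro m
    rw [hf, Polynomial.eval_finsetSum]
    refine sum_congr rfl fun j _ => ?_
    rw [Polynomial.eval_mul, Polynomial.eval_C, descPochhammer_eval_eq_descFactorial]
  have hroot : ∀ m, d < m → m ≤ 2 * d + 1 → f.eval ((m : ℕ) : ZMod p) = 0 := by
    intro m h1 h2
    rw [hev]
    have h3 := congrArg (fun t => ((m.factorial : ℕ) : ZMod p) * t) (h m h1 h2)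
    simp only [mul_zero] at h3
    rw [← h3, mul_sum]
    refine sum_congr rfl fun j hj => ?_
    rw [mem_range] at hj
    have h4 : ((m - j).factorial : ℕ) * m.descFactorial j = m.factorial := Nat.factorial_mul_descFactorial (by omega)
    have h5 : (((m - j).factorial : ℕ) : ZMod p) * ((m.descFactorial j : ℕ) : ZMod p) = ((m.factorial : ℕ) : ZMod p) := by
      exact_mod_cast congrArg (fun n : ℕ => (n : ZMod p)) h4
    have h6 : (((m - j).factorial : ℕ) : ZMod p) ≠ 0 := fact_ne_zero (by omega)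
    rw [← h5]
    unfold fi
    field_simp
  have hf0 : f = 0 := by
    by_contra hne
    have h1 := Polynomial.card_roots' f
    have h2 : f.natDegree < d + 1 := by
      rw [Polynomial.degree_eq_natDegree hne] at hdeg
      exact_mod_cast hdeg
    have h3 : ((Finset.Ioc d (2 * d + 1)).image (fun m : ℕ => ((m : ℕ) : ZMod p))) ⊆ f.roots.toFinset := by
      intro x hx
      rw [mem_image] at hx
      obtain ⟨m, hm, rfl⟩ := hx
      rw [mem_Ioc] at hm
      rw [Multiset.mem_toFinset, Polynomial.mem_roots hne]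
      exact hroot m hm.1 hm.2
    have h4 := card_le_card h3
    rw [card_image_of_injOn, Nat.card_Ioc] at h4
    · have h5 := Multiset.toFinset_card_le f.roots
      omega
    · intro x hx y hy hxy
      rw [mem_coe, mem_Ioc] at hx hy
      simp only at hxy
      rw [ZMod.natCast_eq_natCast_iff'] at hxy
      rw [Nat.mod_eq_of_lt (by omega), Nat.mod_eq_of_lt (by omega)] at hxy
      exact hxy
  intro j
  induction j using Nat.strong_induction_on with
  | _ k ih =>
    intro hk
    have h1 := hev k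
    rw [hf0, Polynomial.eval_zero] at h1
    rw [sum_eq_single_of_mem k (mem_range.2 (by omega))] at h1
    · rw [Nat.descFactorial_self] at h1
      have h2 : ((k.factorial : ℕ) : ZMod p) ≠ 0 := fact_ne_zero (by omega)
      rcases mul_eq_zero.1 h1.symm with h3 | h3
      · exact h3
      · exact absurd h3 h2
    · intro j hj hjk
      rw [mem_range] at hj
      rcases lt_or_gt_of_ne hjk with h2 | h2
      · rw [ih j h2 (by omega), zero_mul]
      · rw [Nat.descFactorial_eq_zero_iff_lt.2 h2]; simp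

/-- `2 (B_k / k!) + [k = 1]` -/
noncomputable def G (p : ℕ) [Fact p.Prime] : PowerSeries (ZMod p) := PowerSeries.mk (fun k => 2 * cc p k + if k = 1 then 1 else 0)

/-- truncated `e^x - 1` -/
noncomputable def E1 (p : ℕ) : PowerSeries (ZMod p) := PowerSeries.mk (fun k => if k = 0 then 0 else fi p k)

lemma cc_one (h3 : 3 ≤ p) : 2 * cc p 1 = -1 := by
  unfold cc
  have h2 : (bernoulli 1) = -1 / 2 := bernoulli_one
  rw [h2]
  have h4 : ((2 : ℕ) : ZMod p) ≠ 0 := nat_ne_zero (by norm_num) (by omega)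
  have h5 : ((-1 / 2 : ℚ) : ZMod p) = -1 / 2 := by
    rw [Rat.cast_def]
    have h3 : ((-1 / 2 : ℚ)).den = 2 := by norm_num
    have h4 : ((-1 / 2 : ℚ)).num = -1 := by norm_num
    rw [h3, h4]; push_cast; ring
  rw [h5]
  have h6 : (2 : ZMod p) ≠ 0 := by exact_mod_cast h4
  simp only [Nat.factorial_one, Nat.cast_one, inv_one, mul_one]
  field_simp

lemma cc_odd {k : ℕ} (hk : Odd k) (h1 : 1 < k) : cc p k = 0 := by
  unfold cc
  rw [bernoulli_eq_zero_of_odd hk h1]; simp

lemma G_odd (h3 : 3 ≤ p) {k : ℕ} (hk : Odd k) : PowerSeries.coeff k (G p) = 0 := by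
  unfold G
  rw [PowerSeries.coeff_mk]
  by_cases h : k = 1
  · subst h
    rw [cc_one h3]; simp
  · obtain ⟨m, hm⟩ := hk
    rw [cc_odd ⟨m, hm⟩ (by omega), if_neg h]; simp

lemma G_even {k : ℕ} (hk : Even k) : PowerSeries.coeff k (G p) = 2 * cc p k := by
  unfold G
  rw [PowerSeries.coeff_mk, if_neg, add_zero]
  rintro rfl
  exact absurd hk (by decide)

/-- `(2 x/(e^x-1) + x) (e^x - 1) = 2 x + x (e^x - 1)` modulo `x^p` -/
lemma G_mul {m : ℕ} (hm : m < p) :
    PowerSeries.coeff m (G p * E1 p) = PowerSeries.coeff m ((2 : PowerSeries (ZMod p)) * X + X * E1 p) := by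
  have hG : G p = (2 : PowerSeries (ZMod p)) * PowerSeries.mk (cc p) + X := by
    ext k
    rw [map_add, show (2 : PowerSeries (ZMod p)) = PowerSeries.C (2 : ZMod p) from (map_ofNat _ 2).symm, PowerSeries.coeff_C_mul,
      PowerSeries.coeff_mk, PowerSeries.coeff_X]
    unfold G
    rw [PowerSeries.coeff_mk]
  rw [hG, add_mul, map_add, map_add]
  congr 1
  rw [mul_assoc]
  rw [show (2 : PowerSeries (ZMod p)) = PowerSeries.C (2 : ZMod p) from (map_ofNat _ 2).symm, PowerSeries.coeff_C_mul, PowerSeries.coeff_C_mul]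
  congr 1
  rw [PowerSeries.coeff_X, PowerSeries.coeff_mul, Finset.Nat.sum_antidiagonal_eq_sum_range_succ_mk]
  simp only [PowerSeries.coeff_mk, E1]
  rw [sum_range_succ, Nat.sub_self, if_pos rfl, mul_zero, add_zero]
  have h1 : ∀ k ∈ range m, cc p k * (if m - k = 0 then 0 else fi p (m - k)) = cc p k * (((m - k).factorial : ℕ) : ZMod p)⁻¹ := by
    intro k hk
    rw [mem_range] at hk
    rw [if_neg (by omega)]
    rfl
  rw [sum_congr rfl h1]
  rcases Nat.lt_or_ge m 2 with h2 | h2
  · interval_cases m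
    · simp
    · simp [cc_zero]
  · rw [cc_rec h2 (by omega), if_neg (by omega)]

lemma coeff_congr_mul {f g h : PowerSeries (ZMod p)} {N : ℕ}
    (hfg : ∀ m < N, PowerSeries.coeff m f = PowerSeries.coeff m g) :
    ∀ m < N, PowerSeries.coeff m (f * h) = PowerSeries.coeff m (g * h) := by
  intro m hm
  rw [PowerSeries.coeff_mul, PowerSeries.coeff_mul]
  refine sum_congr rfl fun x hx => ?_
  rw [HasAntidiagonal.mem_antidiagonal] at hx
  rw [hfg x.1 (by omega)]

/-- Hankel matrices of `B_{2m}/(2m)!`, `m ≥ 1 + s`, `s = 0, 1`, are nonsingular modulo `p`. -/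
theorem hankel {n s : ℕ} (hs : s ≤ 1) (hn : 4 * n + 2 * s + 1 ≤ p) (h3 : 3 ≤ p) (q : ℕ → ZMod p)
    (hq : ∀ i < n, ∑ j ∈ range n, cc p (2 * (i + j + 1 + s)) * q j = 0) : ∀ j < n, q j = 0 := by
  rcases Nat.eq_zero_or_pos n with hn0 | hn0
  · subst hn0
    intro j hj; omega
  obtain ⟨Q, hQ⟩ : ∃ Q : PowerSeries (ZMod p), Q = ∑ j ∈ range n, PowerSeries.C (q j) * X ^ (2 * (n - 1 - j)) := ⟨_, rfl⟩
  -- coefficients of `Q`
  have hXQ : ∀ k, PowerSeries.coeff k (X * Q) = ∑ j ∈ range n, if k = 2 * (n - 1 - j) + 1 then q j else 0 := by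
    intro k
    rw [hQ, mul_sum, map_sum]
    refine sum_congr rfl fun j _ => ?_
    rw [mul_left_comm, ← pow_succ', PowerSeries.coeff_C_mul, PowerSeries.coeff_X_pow]
    split_ifs <;> simp
  have hXQ0 : ∀ k, 2 * n ≤ k → PowerSeries.coeff k (X * Q) = 0 := by
    intro k hk
    rw [hXQ]
    refine sum_eq_zero fun j hj => ?_
    rw [mem_range] at hj
    rw [if_neg (by omega)]
  have hXQ1 : ∀ j < n, PowerSeries.coeff (2 * (n - 1 - j) + 1) (X * Q) = q j := by
    intro j hj
    rw [hXQ, sum_eq_single_of_mem j (mem_range.2 hj), if_pos rfl]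
    intro i hi hij
    rw [mem_range] at hi
    rw [if_neg (by omega)]
  -- the middle coefficients of `G Q`
  have hGQ : ∀ k, 2 * n + 2 * s - 1 ≤ k → k < 4 * n + 2 * s → PowerSeries.coeff k (G p * Q) = 0 := by
    intro k hk1 hk2
    have h1 : PowerSeries.coeff k (G p * Q) = ∑ j ∈ range n, PowerSeries.coeff (k - 2 * (n - 1 - j)) (G p) * q j := by
      rw [hQ, mul_sum, map_sum]
      refine sum_congr rfl fun j hj => ?_
      rw [mem_range] at hj
      rw [mul_left_comm, PowerSeries.coeff_C_mul, PowerSeries.coeff_mul_X_pow', if_pos (by omega), mul_comm]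
    rw [h1]
    rcases Nat.even_or_odd' k with ⟨t, ht | ht⟩
    · have h2 := hq (t - n - s) (by omega)
      have h4 : ∑ j ∈ range n, PowerSeries.coeff (k - 2 * (n - 1 - j)) (G p) * q j =
          2 * ∑ j ∈ range n, cc p (2 * ((t - n - s) + j + 1 + s)) * q j := by
        rw [mul_sum]
        refine sum_congr rfl fun j hj => ?_
        rw [mem_range] at hj
        rw [show k - 2 * (n - 1 - j) = 2 * ((t - n - s) + j + 1 + s) by omega, G_even (even_two_mul _), mul_assoc]
      rw [h4, h2, mul_zero]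
    · refine sum_eq_zero fun j hj => ?_
      rw [mem_range] at hj
      rw [G_odd h3 (k := k - 2 * (n - 1 - j)) ⟨t - (n - 1 - j), by omega⟩, zero_mul]
  obtain ⟨P, hP⟩ : ∃ P : PowerSeries (ZMod p), P = PowerSeries.mk (fun k => if k < 2 * n + 2 * s - 1 then PowerSeries.coeff k (G p * Q) else 0) := ⟨_, rfl⟩
  have hPc : ∀ k < 4 * n + 2 * s, PowerSeries.coeff k P = PowerSeries.coeff k (G p * Q) := by
    intro k hk
    rw [hP, PowerSeries.coeff_mk]
    split_ifs with h
    · rfl
    · exact (hGQ k (by omega) hk).symm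
  have hP0 : ∀ k, 2 * n + 2 * s - 1 ≤ k → PowerSeries.coeff k P = 0 := by
    intro k hk
    rw [hP, PowerSeries.coeff_mk, if_neg (by omega)]
  -- `P E1 = (2 X + X E1) Q` modulo `X ^ (4 n + 2 s)`
  have h5 : ∀ m < 4 * n + 2 * s, PowerSeries.coeff m (P * E1 p) = PowerSeries.coeff m ((2 * X + X * E1 p) * Q) := by
    intro m hm
    rw [coeff_congr_mul hPc m hm, mul_right_comm]
    exact coeff_congr_mul (fun k hk => G_mul (by omega)) m hm
  obtain ⟨A, hA⟩ : ∃ A : PowerSeries (ZMod p), A = P - X * Q := ⟨_, rfl⟩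
  have h6 : ∀ m < 4 * n + 2 * s, PowerSeries.coeff m (A + A * E1 p) = PowerSeries.coeff m (P + X * Q) := by
    intro m hm
    have e1 : A + A * E1 p = P * E1 p + (P - X * Q - X * Q * E1 p) := by rw [hA]; ring
    have e2 : P + X * Q = (2 * X + X * E1 p) * Q + (P - X * Q - X * Q * E1 p) := by ring
    rw [e1, e2, map_add, map_add, h5 m hm]
  have hA0 : ∀ k, 2 * n + s ≤ k → PowerSeries.coeff k A = 0 := by
    intro k hk
    rw [hA, map_sub, hP0 k (by omega), hXQ0 k (by omega), sub_zero]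
  have hAE : ∀ m, 2 * n + s ≤ m → PowerSeries.coeff m (A + A * E1 p) = ∑ j ∈ range (2 * n - 1 + s + 1), PowerSeries.coeff j A * fi p (m - j) := by
    intro m hm
    rw [map_add, hA0 m hm, zero_add, PowerSeries.coeff_mul, Finset.Nat.sum_antidiagonal_eq_sum_range_succ_mk]
    rw [← sum_subset (s₁ := range (2 * n - 1 + s + 1)) (by intro x hx; rw [mem_range] at *; omega)]
    · refine sum_congr rfl fun j hj => ?_
      rw [mem_range] at hj
      simp only [E1, PowerSeries.coeff_mk]
      rw [if_neg (by omega)]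
    · intro x hx hx2
      rw [mem_range] at hx hx2
      rw [hA0 x (by omega), zero_mul]
  have hzero : ∀ j ≤ 2 * n - 1 + s, PowerSeries.coeff j A = 0 := by
    refine pade (d := 2 * n - 1 + s) (by omega) (fun j => PowerSeries.coeff j A) ?_
    intro m hm1 hm2
    rw [← hAE m (by omega), h6 m (by omega), map_add, hP0 m (by omega), hXQ0 m (by omega), add_zero]
  have hAall : A = 0 := by
    ext k
    rw [map_zero]
    rcases Nat.lt_or_ge k (2 * n + s) with h | h
    · exact hzero k (by omega)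
    · exact hA0 k h
  have hPX : P = X * Q := by rw [hAall] at hA; exact (sub_eq_zero.1 hA.symm)
  intro j hj
  have h7 := h6 (2 * (n - 1 - j) + 1) (by omega)
  rw [hAall, zero_mul, add_zero, map_zero, hPX, map_add, hXQ1 j hj, ← two_mul] at h7
  have h8 : ((2 : ℕ) : ZMod p) ≠ 0 := nat_ne_zero (by norm_num) (by omega)
  rcases mul_eq_zero.1 h7.symm with h9 | h9
  · exact absurd h9 (by exact_mod_cast h8)
  · exact h9

/-- There is a permutation `σ` of `0, …, n - 1` such that `p` does not divide the numerator of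
`B_{2 (i + σ i + 1 + s)}`. -/
theorem perm {n s : ℕ} (hs : s ≤ 1) (hn : 4 * n + 2 * s + 1 ≤ p) :
    ∃ σ : Equiv.Perm (Fin n), ∀ i : Fin n, ¬ ((p : ℤ) ∣ (bernoulli (2 * ((i : ℕ) + (σ i : ℕ) + 1 + s))).num) := by
  rcases Nat.eq_zero_or_pos n with hn0 | hn0
  · subst hn0
    exact ⟨1, fun i => i.elim0⟩
  have h3 : 3 ≤ p := by omega
  have hdet : (Matrix.of fun i j : Fin n => cc p (2 * ((i : ℕ) + j + 1 + s))).det ≠ 0 := by
    intro h0
    obtain ⟨v, hv, hv2⟩ := Matrix.exists_mulVec_eq_zero_iff.2 h0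
    apply hv
    have h1 := hankel (n := n) (s := s) hs hn h3 (fun j => if h : j < n then v ⟨j, h⟩ else 0) (by
      intro i hi
      have h2 := congrFun hv2 ⟨i, hi⟩
      rw [Matrix.mulVec, dotProduct] at h2
      simp only [Matrix.of_apply, Pi.zero_apply] at h2
      rw [← h2, Finset.sum_range]
      refine sum_congr rfl fun j _ => ?_
      rw [dif_pos j.2])
    ext j
    have h2 := h1 j j.2
    rw [dif_pos j.2] at h2
    exact h2
  rw [Matrix.det_apply] at hdet
  obtain ⟨σ, -, hσ⟩ := Finset.exists_ne_zero_of_sum_ne_zero hdet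
  refine ⟨σ, fun i => ?_⟩
  have h1 : ∏ i : Fin n, (Matrix.of fun i j : Fin n => cc p (2 * ((i : ℕ) + j + 1 + s))) (σ i) i ≠ 0 := by
    intro h
    apply hσ
    rw [h, smul_zero]
  rw [Finset.prod_ne_zero_iff] at h1
  have h2 := h1 i (mem_univ _)
  rw [Matrix.of_apply] at h2
  rw [← cc_eq_zero_iff (by have := i.2; have := (σ i).2; omega) h3]
  rw [show (i : ℕ) + (σ i : ℕ) = (σ i : ℕ) + i by omega]
  exact h2

end Pool.Agent.X148.RegPerm
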