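import Mathlib
import Pool.Agent.TH487.RP.Alg
import Pool.Agent.TH487.RP.PV
import Pool.Agent.H916R2.OddChar
import Pool.Agent.TH350.SC.Bern

/-! Irregular indices of a given order: at most (about) half of them. -/

set_option autoImplicit false

open Finset Polynomial Pool.Agent.TH487.RP Pool.Agent.H916R2

namespace Pool.Agent.X148.Orders

lemma saw_nat (p v : ℕ) [NeZero p] (h0 : 0 < v) (hv : v < p) : saw ((v : ℕ) : ZMod p) = 2 * (v : ℤ) - p := by
  unfold saw
  have hne : ((v : ℕ) : ZMod p) ≠ 0 := by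
    intro h
    rw [ZMod.natCast_eq_zero_iff] at h
    exact absurd (Nat.le_of_dvd h0 h) (by omega)
  rw [if_neg hne, ZMod.val_natCast, Nat.mod_eq_of_lt hv]

lemma SS_one (p : ℕ) [hp : Fact p.Prime] (χ : DirichletCharacter ℂ p) :
    SS χ 1 = ∑ t : ZMod p, χ t * (saw t : ℂ) := by
  unfold SS
  simp only [mul_one]
  rw [← Fintype.sum_of_injective (fun k : (ZMod p)ˣ => (k : ZMod p)) Units.val_injective
          (fun k => χ (k : ZMod p) * (saw (k : ZMod p) : ℂ))
          (fun k => χ k * (saw k : ℂ))]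
  · intro x hx
    have : ¬ IsUnit x := by
      rintro ⟨v, hv⟩
      exact hx ⟨v, hv⟩
    rw [χ.map_nonunit this, zero_mul]
  · intro k; rfl

lemma SS_ne (p : ℕ) [hp : Fact p.Prime] (χ : DirichletCharacter ℂ p) (hχ : χ.Odd) :
    ∑ t : ZMod p, χ t * (saw t : ℂ) ≠ 0 := by
  intro h0
  obtain ⟨a, ha⟩ := exists_SS_ne_zero χ hχ
  apply ha
  by_cases haz : a = 0
  · subst haz
    unfold SS
    simp [saw_zero]
  · obtain ⟨u, hu⟩ : IsUnit a := isUnit_iff_ne_zero.2 haz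
    have h1 : χ a * SS χ a = SS χ 1 := by
      unfold SS
      rw [mul_sum, ← Equiv.sum_comp (Equiv.mulRight u) (fun t : (ZMod p)ˣ => χ t * (saw ((t : ZMod p) * 1) : ℂ))]
      refine sum_congr rfl fun t _ => ?_
      simp only [Equiv.coe_mulRight, Units.val_mul, mul_one, hu, map_mul]
      ring
    rw [SS_one, h0] at h1
    rcases mul_eq_zero.1 h1 with h2 | h2
    · exfalso
      rw [← hu] at h2
      have h3 : χ (u : ZMod p) * χ ((u⁻¹ : (ZMod p)ˣ) : ZMod p) = 1 := by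
        rw [← map_mul, ← Units.val_mul, mul_inv_cancel, Units.val_one, map_one]
      rw [h2, zero_mul] at h3
      exact zero_ne_one h3
    · exact h2

/-- the sum of an odd character up to `p / 2` does not vanish -/
lemma half_ne_zero (p M : ℕ) [hp : Fact p.Prime] (hM : p = 2 * M + 1) (χ : DirichletCharacter ℂ p)
    (hχ : χ.Odd) : ∑ v ∈ range M, χ (((v + 1 : ℕ)) : ZMod p) ≠ 0 := by
  intro hH
  have hp0 : p ≠ 0 := hp.out.ne_zero
  have hodd : ∀ x : ZMod p, χ (-x) = - χ x := fun x => DirichletCharacter.Odd.eval_neg (ψ := χ) x hχ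
  have h1 : ∑ t : ZMod p, χ t * (saw t : ℂ) =
      2 * ∑ v ∈ range M, χ ((v + 1 : ℕ) : ZMod p) * (2 * ((v : ℂ) + 1) - p) := by
    rw [sum_zmod p M hM, saw_zero, mul_sum]
    simp only [Int.cast_zero, mul_zero, zero_add]
    refine sum_congr rfl fun v hv => ?_
    rw [mem_range] at hv
    rw [hodd, saw_neg, saw_nat p (v + 1) (by omega) (by omega)]
    push_cast; ring
  have h2 : ∑ t : ZMod p, χ t * (saw (2 * t) : ℂ) =
      2 * ∑ v ∈ range M, χ ((v + 1 : ℕ) : ZMod p) * (4 * ((v : ℂ) + 1) - p) := by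
    rw [sum_zmod p M hM, mul_zero, saw_zero, mul_sum]
    simp only [Int.cast_zero, mul_zero, zero_add]
    refine sum_congr rfl fun v hv => ?_
    rw [mem_range] at hv
    have h3 : (2 : ZMod p) * ((v + 1 : ℕ) : ZMod p) = ((2 * (v + 1) : ℕ) : ZMod p) := by push_cast; ring
    rw [hodd, mul_neg, saw_neg, h3, saw_nat p (2 * (v + 1)) (by omega) (by omega)]
    push_cast; ring
  have hp2 : (2 : ZMod p) ≠ 0 := by
    intro h
    have h3 : ((2 : ℕ) : ZMod p) = 0 := by exact_mod_cast h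
    rw [ZMod.natCast_eq_zero_iff] at h3
    have := Nat.le_of_dvd (by norm_num) h3
    have := hp.out.two_le
    omega
  have h3 : χ 2 * ∑ t : ZMod p, χ t * (saw (2 * t) : ℂ) = ∑ t : ZMod p, χ t * (saw t : ℂ) := by
    rw [mul_sum, ← Equiv.sum_comp (Equiv.mulLeft₀ (2 : ZMod p) hp2) (fun t : ZMod p => χ t * (saw t : ℂ))]
    refine sum_congr rfl fun t _ => ?_
    show χ 2 * (χ t * (saw (2 * t) : ℂ)) = χ (2 * t) * (saw (2 * t) : ℂ)
    rw [map_mul]
    ring
  have h4 : ∑ t : ZMod p, χ t * (saw (2 * t) : ℂ) = 2 * ∑ t : ZMod p, χ t * (saw t : ℂ) := by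
    rw [h1, h2]
    have h5 : ∑ v ∈ range M, χ ((v + 1 : ℕ) : ZMod p) * (4 * ((v : ℂ) + 1) - p) =
        2 * ∑ v ∈ range M, χ ((v + 1 : ℕ) : ZMod p) * (2 * ((v : ℂ) + 1) - p) +
        p * ∑ v ∈ range M, χ (((v + 1 : ℕ)) : ZMod p) := by
      rw [mul_sum, mul_sum, ← sum_add_distrib]
      refine sum_congr rfl fun v _ => ?_
      ring
    rw [h5, hH]; ring
  rw [h4] at h3
  have h5 : (∑ t : ZMod p, χ t * (saw t : ℂ)) * (2 * χ 2 - 1) = 0 := by linear_combination h3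
  rcases mul_eq_zero.1 h5 with h6 | h6
  · exact SS_ne p χ hχ h6
  · have h7 : 2 * χ 2 = 1 := sub_eq_zero.1 h6
    have h8 := congrArg norm h7
    rw [norm_mul, norm_one] at h8
    have h9 : ‖χ 2‖ = 1 := by
      obtain ⟨u, hu⟩ : IsUnit (2 : ZMod p) := isUnit_iff_ne_zero.2 hp2
      rw [← hu]
      exact DirichletCharacter.unit_norm_eq_one χ u
    rw [h9] at h8
    norm_num at h8

/-- an irregular index gives a vanishing half sum modulo `p` -/
lemma half_zero (p M k : ℕ) [hp : Fact p.Prime] (hM : p = 2 * M + 1) (hk0 : 2 ≤ k) (hke : Even k) (hk : k + 3 ≤ p)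
    (hB : (p : ℤ) ∣ (_root_.bernoulli k).num) : ∑ v ∈ range M, (((v + 1 : ℕ)) : ZMod p) ^ (k - 1) = 0 := by
  have hp2 : (2 : ZMod p) ≠ 0 := by
    intro h
    have h3 : ((2 : ℕ) : ZMod p) = 0 := by exact_mod_cast h
    rw [ZMod.natCast_eq_zero_iff] at h3
    have := Nat.le_of_dvd (by norm_num) h3
    omega
  have h1 := Pool.Agent.TH350.SC.vor_bern (p := p) (k := k) (c := 2) (by omega) (by omega) (by omega) (by
    intro h
    have := Nat.le_of_dvd (by norm_num) h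
    omega)
  have h2 : ((_root_.bernoulli k : ℚ) : ZMod p) = 0 := by
    rw [Rat.cast_def, (ZMod.intCast_zmod_eq_zero_iff_dvd _ p).2 hB, zero_div]
  rw [h2, mul_zero] at h1
  have hk1 : ((k : ℕ) : ZMod p) ≠ 0 := by
    intro h
    rw [ZMod.natCast_eq_zero_iff] at h
    have := Nat.le_of_dvd (by omega) h
    omega
  have h3 := (mul_eq_zero.1 h1.symm).resolve_left hk1
  have h4 : range p = range ((M + 1) + M) := by congr 1; omega
  rw [h4, sum_range_add] at h3
  have h5 : ∑ a ∈ range (M + 1), ((2 * a / p : ℕ) : ZMod p) * ((2 * a : ℕ) : ZMod p) ^ (k - 1) = 0 := by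
    refine sum_eq_zero fun a ha => ?_
    rw [mem_range] at ha
    rw [Nat.div_eq_of_lt (by omega)]; simp
  rw [h5, zero_add, ← sum_range_reflect] at h3
  have h6 : ∀ v ∈ range M, ((2 * (M + 1 + (M - 1 - v)) / p : ℕ) : ZMod p) *
      ((2 * (M + 1 + (M - 1 - v)) : ℕ) : ZMod p) ^ (k - 1) = - 2 ^ (k - 1) * (((v + 1 : ℕ)) : ZMod p) ^ (k - 1) := by
    intro v hv
    rw [mem_range] at hv
    have e1 : 2 * (M + 1 + (M - 1 - v)) / p = 1 := by
      rw [Nat.div_eq_iff (by omega)]; omega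
    have e2 : ((M + 1 + (M - 1 - v) : ℕ) : ZMod p) = - ((v + 1 : ℕ) : ZMod p) := by
      rw [eq_neg_iff_add_eq_zero, ← Nat.cast_add]
      have : M + 1 + (M - 1 - v) + (v + 1) = p := by omega
      rw [this]
      exact ZMod.natCast_self p
    rw [e1, Nat.cast_one, one_mul, Nat.cast_mul, e2, mul_neg, neg_pow, mul_pow]
    have ho : Odd (k - 1) := by
      obtain ⟨r, hr⟩ := hke
      exact ⟨r - 1, by omega⟩
    rw [ho.neg_one_pow]
    push_cast
    ring
  rw [sum_congr rfl h6, ← mul_sum] at h3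
  exact (mul_eq_zero.1 h3).resolve_left (neg_ne_zero.2 (pow_ne_zero _ hp2))

lemma pow_half {R : Type} [CommRing R] [IsDomain R] {x : R} {k : ℕ} (hk : 0 < k) (h : IsPrimitiveRoot x (2 * k)) :
    x ^ k = -1 := by
  have h1 : (x ^ k - 1) * (x ^ k + 1) = 0 := by
    have := h.pow_eq_one
    rw [mul_comm, pow_mul] at this
    linear_combination this
  rcases mul_eq_zero.1 h1 with h2 | h2
  · exfalso
    exact h.pow_ne_one_of_pos_of_lt hk.ne' (by omega) (sub_eq_zero.1 h2)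
  · exact eq_neg_of_add_eq_zero_left h2

lemma exists_gen (p : ℕ) [hp : Fact p.Prime] : ∃ g : (ZMod p)ˣ, (∀ x, x ∈ Subgroup.zpowers g) ∧
    IsPrimitiveRoot ((g : (ZMod p)ˣ) : ZMod p) (p - 1) := by
  obtain ⟨g, hg⟩ := IsCyclic.exists_generator (α := (ZMod p)ˣ)
  refine ⟨g, hg, ?_⟩
  rw [IsPrimitiveRoot.coe_units_iff]
  have h1 : orderOf g = p - 1 := by
    rw [orderOf_eq_card_of_forall_mem_zpowers hg, Nat.card_eq_fintype_card, ZMod.card_units]
  rw [← h1]
  exact IsPrimitiveRoot.orderOf g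

lemma exists_index (p : ℕ) [hp : Fact p.Prime] (g : (ZMod p)ˣ) (hg : ∀ x, x ∈ Subgroup.zpowers g) :
    ∃ i : ℕ → ℕ, ∀ a, 0 < a → a < p → ((g : (ZMod p)ˣ) : ZMod p) ^ (i a) = ((a : ℕ) : ZMod p) := by
  have h1 : ∀ a : ℕ, ∃ n : ℕ, 0 < a → a < p → ((g : (ZMod p)ˣ) : ZMod p) ^ n = ((a : ℕ) : ZMod p) := by
    intro a
    by_cases h : 0 < a ∧ a < p
    · have h2 : ((a : ℕ) : ZMod p) ≠ 0 := by
        intro h3
        rw [ZMod.natCast_eq_zero_iff] at h3
        exact absurd (Nat.le_of_dvd h.1 h3) (by omega)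
      obtain ⟨n, hn⟩ := mem_powers_iff_mem_zpowers.2 (hg (Units.mk0 _ h2))
      refine ⟨n, fun _ _ => ?_⟩
      have h3 := congrArg (fun u : (ZMod p)ˣ => (u : ZMod p)) hn
      simpa using h3
    · exact ⟨0, fun h2 h3 => absurd ⟨h2, h3⟩ h⟩
  choose i hi using h1
  exact ⟨i, hi⟩

/-- characters with a given value at the generator -/
lemma exists_char (p : ℕ) [hp : Fact p.Prime] (g : (ZMod p)ˣ) (hg : ∀ x, x ∈ Subgroup.zpowers g)
    (ζ : ℂ) (hζ : ζ ^ (p - 1) = 1) : ∃ χ : DirichletCharacter ℂ p, χ ((g : (ZMod p)ˣ) : ZMod p) = ζ := by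
  have hp1 : p - 1 ≠ 0 := by have := hp.out.two_le; omega
  have hne : ζ ≠ 0 := by
    rintro rfl
    rw [zero_pow hp1] at hζ
    exact zero_ne_one hζ
  have h1 : Units.mk0 ζ hne ∈ rootsOfUnity (Fintype.card (ZMod p)ˣ) ℂ := by
    rw [mem_rootsOfUnity, ZMod.card_units]
    ext
    simpa using hζ
  exact ⟨MulChar.ofRootOfUnity h1 hg, MulChar.ofRootOfUnity_spec h1 hg⟩

end Pool.Agent.X148.Orders
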