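import Mathlib
import Pool.Agent.X148.Orders

set_option autoImplicit false

open Finset Polynomial Pool.Agent.TH487.RP Pool.Agent.H916R2

namespace Pool.Agent.X148.Orders

open Classical in
/-- Parseval for the odd characters -/
lemma parseval (p M : ℕ) [hp : Fact p.Prime] (hM : p = 2 * M + 1) :
    ∑ χ : DirichletCharacter ℂ p, (if χ.Odd then ‖∑ v ∈ range M, χ (((v + 1 : ℕ)) : ZMod p)‖ ^ 2 else 0) = (M : ℝ) ^ 2 := by
  classical
  have h1 : ∀ χ : DirichletCharacter ℂ p, ((2 * (if χ.Odd then ‖∑ v ∈ range M, χ (((v + 1 : ℕ)) : ZMod p)‖ ^ 2 else 0) : ℝ) : ℂ) =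
      (1 - χ (-1)) * ∑ b ∈ range M, ∑ a ∈ range M, χ ((((b + 1 : ℕ)) : ZMod p)⁻¹) * χ (((a + 1 : ℕ)) : ZMod p) := by
    intro χ
    have h2 : ∀ b ∈ range M, χ ((((b + 1 : ℕ)) : ZMod p)⁻¹) = (starRingEnd ℂ) (χ (((b + 1 : ℕ)) : ZMod p)) := by
      intro b _
      rw [← MulChar.inv_apply', ← MulChar.star_apply']
      rfl
    have h3 : ∑ b ∈ range M, ∑ a ∈ range M, χ ((((b + 1 : ℕ)) : ZMod p)⁻¹) * χ (((a + 1 : ℕ)) : ZMod p) =
        ((‖∑ v ∈ range M, χ (((v + 1 : ℕ)) : ZMod p)‖ ^ 2 : ℝ) : ℂ) := by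
      have h4 := Complex.mul_conj (∑ v ∈ range M, χ (((v + 1 : ℕ)) : ZMod p))
      rw [Complex.normSq_eq_norm_sq] at h4
      rw [← h4, map_sum, mul_comm, sum_mul_sum]
      refine sum_congr rfl fun b hb => ?_
      rw [h2 b hb]
    rw [h3]
    rcases χ.even_or_odd with he | ho
    · have hno : ¬ χ.Odd := by
        intro ho
        unfold DirichletCharacter.Odd at ho
        unfold DirichletCharacter.Even at he
        rw [ho] at he
        norm_num at he
      rw [if_neg hno]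
      unfold DirichletCharacter.Even at he
      rw [he]; simp
    · rw [if_pos ho]
      unfold DirichletCharacter.Odd at ho
      rw [ho]; push_cast; ring
  have h5 : ∑ χ : DirichletCharacter ℂ p, ((1 - χ (-1)) * ∑ b ∈ range M, ∑ a ∈ range M,
      χ ((((b + 1 : ℕ)) : ZMod p)⁻¹) * χ (((a + 1 : ℕ)) : ZMod p)) = ((2 * (M : ℝ) ^ 2 : ℝ) : ℂ) := by
    have e1 : ∀ χ : DirichletCharacter ℂ p, ((1 - χ (-1)) * ∑ b ∈ range M, ∑ a ∈ range M,
      χ ((((b + 1 : ℕ)) : ZMod p)⁻¹) * χ (((a + 1 : ℕ)) : ZMod p)) = ∑ b ∈ range M, ∑ a ∈ range M,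
        (χ ((((b + 1 : ℕ)) : ZMod p)⁻¹) * χ (((a + 1 : ℕ)) : ZMod p) -
          χ ((((b + 1 : ℕ)) : ZMod p)⁻¹) * χ (-(((a + 1 : ℕ)) : ZMod p))) := by
      intro χ
      rw [mul_sum]
      refine sum_congr rfl fun b _ => ?_
      rw [mul_sum]
      refine sum_congr rfl fun a _ => ?_
      rw [← neg_one_mul (((a + 1 : ℕ)) : ZMod p), map_mul]
      ring
    rw [sum_congr rfl fun χ _ => e1 χ, sum_comm]
    have e2 : ∀ b ∈ range M, ∑ χ : DirichletCharacter ℂ p, ∑ a ∈ range M,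
        (χ ((((b + 1 : ℕ)) : ZMod p)⁻¹) * χ (((a + 1 : ℕ)) : ZMod p) -
          χ ((((b + 1 : ℕ)) : ZMod p)⁻¹) * χ (-(((a + 1 : ℕ)) : ZMod p))) = 2 * M := by
      intro b hb
      rw [mem_range] at hb
      have hne : (((b + 1 : ℕ)) : ZMod p) ≠ 0 := by
        intro h
        rw [ZMod.natCast_eq_zero_iff] at h
        have := Nat.le_of_dvd (by omega) h
        omega
      have hunit : IsUnit (((b + 1 : ℕ)) : ZMod p) := isUnit_iff_ne_zero.2 hne
      rw [sum_comm]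
      have e3 : ∀ a ∈ range M, ∑ χ : DirichletCharacter ℂ p,
        (χ ((((b + 1 : ℕ)) : ZMod p)⁻¹) * χ (((a + 1 : ℕ)) : ZMod p) -
          χ ((((b + 1 : ℕ)) : ZMod p)⁻¹) * χ (-(((a + 1 : ℕ)) : ZMod p))) = if b = a then ((2 * M : ℕ) : ℂ) else 0 := by
        intro a ha
        rw [mem_range] at ha
        rw [sum_sub_distrib, DirichletCharacter.sum_char_inv_mul_char_eq ℂ hunit,
          DirichletCharacter.sum_char_inv_mul_char_eq ℂ hunit, Nat.totient_prime hp.out]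
        have e4 : ¬ (((b + 1 : ℕ)) : ZMod p) = -(((a + 1 : ℕ)) : ZMod p) := by
          intro h
          rw [eq_neg_iff_add_eq_zero, ← Nat.cast_add, ZMod.natCast_eq_zero_iff] at h
          have := Nat.le_of_dvd (by omega) h
          omega
        rw [if_neg e4, sub_zero, show p - 1 = 2 * M by omega]
        by_cases hab : b = a
        · subst hab; simp
        · rw [if_neg hab, if_neg]
          intro h
          rw [ZMod.natCast_eq_natCast_iff', Nat.mod_eq_of_lt (by omega), Nat.mod_eq_of_lt (by omega)] at h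
          omega
      rw [sum_congr rfl e3, sum_ite_eq, if_pos (mem_range.2 hb)]
      push_cast; ring
    rw [sum_congr rfl e2, sum_const, card_range, nsmul_eq_mul]
    push_cast; ring
  have h6 : ((2 * ∑ χ : DirichletCharacter ℂ p, (if χ.Odd then ‖∑ v ∈ range M, χ (((v + 1 : ℕ)) : ZMod p)‖ ^ 2 else 0) : ℝ) : ℂ) =
      ((2 * (M : ℝ) ^ 2 : ℝ) : ℂ) := by
    rw [← h5, mul_sum, Complex.ofReal_sum]
    exact sum_congr rfl fun χ _ => h1 χ
  have h7 := Complex.ofReal_injective h6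
  linarith

/-- AM-GM -/
lemma amgm {ι : Type} (s : Finset ι) (z : ι → ℝ) (hz : ∀ i ∈ s, 0 ≤ z i) (hs : 0 < s.card) :
    ∏ i ∈ s, z i ≤ ((∑ i ∈ s, z i) / s.card) ^ s.card := by
  have h := Real.geom_mean_le_arith_mean s (fun _ => 1) z (fun _ _ => zero_le_one) (by simpa using hs) hz
  simp only [Real.rpow_one, sum_const, nsmul_eq_mul, mul_one, one_mul] at h
  have h1 : 0 ≤ ∏ i ∈ s, z i := prod_nonneg hz
  have h2 := pow_le_pow_left₀ (Real.rpow_nonneg h1 _) h s.card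
  rwa [← Real.rpow_natCast, ← Real.rpow_mul h1, inv_mul_cancel₀ (by exact_mod_cast hs.ne'), Real.rpow_one] at h2

end Pool.Agent.X148.Orders
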