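import Mathlib
import Pool.Agent.X148.Orders2

set_option autoImplicit false

open Finset Polynomial Pool.Agent.TH487.RP Pool.Agent.H916R2

namespace Pool.Agent.X148.Orders

theorem main (p : ℕ) (hp : p.Prime) (h3 : 3 ≤ p) (d e : ℕ) (he : Odd e) (hde : p - 1 = d * e)
    (A : Finset ℕ) (hA : ∀ m ∈ A, 1 ≤ m ∧ 2 * m + 3 ≤ p ∧ Nat.gcd (2 * m - 1) (p - 1) = e ∧
      (p : ℤ) ∣ (_root_.bernoulli (2 * m)).num) :
    (p : ℝ) ^ A.card ≤ (Real.sqrt p * Real.log p) ^ d.totient ∧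
    (p : ℝ) ^ (2 * A.card) ≤ (((p : ℝ) - 1) ^ 2 / (4 * d.totient)) ^ d.totient := by
  classical
  have hF : Fact p.Prime := ⟨hp⟩
  obtain ⟨M, hM⟩ : ∃ M, p = 2 * M + 1 := by
    rcases hp.eq_two_or_odd' with h | h
    · omega
    · exact h
  have hM0 : 0 < M := by omega
  have hpM : p - 1 = 2 * M := by omega
  obtain ⟨d', hd'⟩ : ∃ d', d = 2 * d' := by
    have h1 : Even (d * e) := ⟨M, by rw [← hde]; omega⟩
    rw [Nat.even_mul] at h1
    rcases h1 with h1 | h1
    · obtain ⟨r, hr⟩ := h1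
      exact ⟨r, by omega⟩
    · exact absurd h1 (Nat.not_even_iff_odd.2 he)
  have hMd : M = d' * e := by
    rw [hpM, hd', mul_assoc] at hde
    omega
  have he0 : 0 < e := he.pos
  have hd'0 : 0 < d' := by
    rcases Nat.eq_zero_or_pos d' with h | h
    · rw [h, zero_mul] at hMd; omega
    · exact h
  have hd0 : 0 < d := by omega
  have htot : 0 < d.totient := Nat.totient_pos.2 hd0
  obtain ⟨g, hg, hgp⟩ := exists_gen p
  obtain ⟨i, hi⟩ := exists_index p g hg
  obtain ⟨P, hP⟩ : ∃ P : ℤ[X], P = ∑ v ∈ range M, X ^ (i (v + 1)) := ⟨_, rfl⟩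
  have hPe : ∀ (K : Type) [CommRing K] (x : K), P.eval₂ (Int.castRingHom K) x = ∑ v ∈ range M, x ^ (i (v + 1)) := by
    intro K _ x
    rw [hP, eval₂_finsetSum]
    refine sum_congr rfl fun v _ => ?_
    rw [eval₂_X_pow]
  -- divisibility
  have hdiv : (p : ℤ) ^ A.card ∣ (MM d P).det := by
    have h1 : (A.image (fun m => ((g : (ZMod p)ˣ) : ZMod p) ^ (2 * m - 1))).card = A.card := by
      apply card_image_of_injOn
      intro m hm n hn h
      obtain ⟨a1, a2, -, -⟩ := hA m hm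
      obtain ⟨b1, b2, -, -⟩ := hA n hn
      have h2 := hgp.pow_inj (i := 2 * m - 1) (j := 2 * n - 1) (by omega) (by omega) h
      omega
    rw [← h1]
    refine pow_dvd_det p d hd0 ⟨e, hde⟩ P _ ?_
    intro ρ hρ
    rw [mem_image] at hρ
    obtain ⟨m, hm, rfl⟩ := hρ
    obtain ⟨a1, a2, a3, a4⟩ := hA m hm
    constructor
    · have h2 : orderOf (((g : (ZMod p)ˣ) : ZMod p) ^ (2 * m - 1)) = d := by
        rw [orderOf_pow' _ (by omega), ← hgp.eq_orderOf, Nat.gcd_comm, a3, hde, Nat.mul_div_cancel _ he0]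
      rw [← h2]
      exact IsPrimitiveRoot.orderOf _
    · rw [hPe]
      have h2 := half_zero p M (2 * m) hM (by omega) (even_two_mul m) (by omega) a4
      rw [← h2]
      refine sum_congr rfl fun v hv => ?_
      rw [mem_range] at hv
      rw [← pow_mul, mul_comm, pow_mul, hi (v + 1) (by omega) (by omega)]
  -- characters
  have hch : ∀ ζ ∈ primitiveRoots d ℂ, ∃ χ : DirichletCharacter ℂ p, χ ((g : (ZMod p)ˣ) : ZMod p) = ζ ∧ χ.Odd ∧
      P.eval₂ (Int.castRingHom ℂ) ζ = ∑ v ∈ range M, χ (((v + 1 : ℕ)) : ZMod p) := by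
    intro ζ hζ
    rw [mem_primitiveRoots hd0] at hζ
    have h1 : ζ ^ (p - 1) = 1 := by rw [hde, pow_mul, hζ.pow_eq_one, one_pow]
    obtain ⟨χ, hχ⟩ := exists_char p g hg ζ h1
    refine ⟨χ, hχ, ?_, ?_⟩
    · unfold DirichletCharacter.Odd
      rw [← pow_half hM0 (by rw [← hpM]; exact hgp), map_pow, hχ, hMd, pow_mul]
      rw [hd'] at hζ
      rw [pow_half hd'0 hζ, he.neg_one_pow]
    · rw [hPe]
      refine sum_congr rfl fun v hv => ?_
      rw [mem_range] at hv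
      rw [← hi (v + 1) (by omega) (by omega), map_pow, hχ]
  have hdet := det_MM d hd0 P
  have hne : (MM d P).det ≠ 0 := by
    intro h0
    rw [h0, Int.cast_zero] at hdet
    obtain ⟨ζ, hζ, h1⟩ := prod_eq_zero_iff.1 hdet.symm
    obtain ⟨χ, -, hodd, h2⟩ := hch ζ hζ
    rw [h2] at h1
    exact half_ne_zero p M hM χ hodd h1
  have hle : (p : ℝ) ^ A.card ≤ ∏ ζ ∈ primitiveRoots d ℂ, ‖P.eval₂ (Int.castRingHom ℂ) ζ‖ := by
    rw [← norm_prod, ← hdet]
    have h1 : (p : ℤ) ^ A.card ≤ |(MM d P).det| := Int.le_of_dvd (abs_pos.2 hne) ((dvd_abs _ _).2 hdiv)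
    have h2 : ((p : ℝ) ^ A.card) ≤ ((|(MM d P).det| : ℤ) : ℝ) := by exact_mod_cast h1
    rw [Complex.norm_intCast]
    rw [Int.cast_abs] at h2
    exact h2
  have hcard : (primitiveRoots d ℂ).card = d.totient := (Complex.isPrimitiveRoot_exp d hd0.ne').card_primitiveRoots
  constructor
  · refine hle.trans ?_
    rw [← hcard, ← prod_const]
    refine prod_le_prod (fun _ _ => norm_nonneg _) fun ζ hζ => ?_
    obtain ⟨χ, hχ, hodd, h2⟩ := hch ζ hζ
    rw [h2]
    have hχ1 : χ ≠ 1 := by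
      intro h
      unfold DirichletCharacter.Odd at hodd
      rw [h, MulChar.one_apply (by simp : IsUnit (-1 : ZMod p))] at hodd
      norm_num at hodd
    have h4 := polya_vinogradov p (by omega) χ hχ1 (M + 1)
    rw [sum_range_succ', Nat.cast_zero, MulChar.map_zero, add_zero] at h4
    exact h4
  · have h1 : ((p : ℝ) ^ (2 * A.card)) ≤ ∏ ζ ∈ primitiveRoots d ℂ, ‖P.eval₂ (Int.castRingHom ℂ) ζ‖ ^ 2 := by
      rw [mul_comm 2, pow_mul, prod_pow]
      exact pow_le_pow_left₀ (by positivity) hle 2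
    refine h1.trans ((amgm _ _ (fun _ _ => by positivity) (by rw [hcard]; exact htot)).trans ?_)
    rw [hcard]
    refine pow_le_pow_left₀ (by positivity) ?_ _
    have h2 : ∑ ζ ∈ primitiveRoots d ℂ, ‖P.eval₂ (Int.castRingHom ℂ) ζ‖ ^ 2 ≤ (M : ℝ) ^ 2 := by
      rw [← parseval p M hM]
      choose! c hc using hch
      have h3 : ∑ ζ ∈ primitiveRoots d ℂ, ‖P.eval₂ (Int.castRingHom ℂ) ζ‖ ^ 2 =
          ∑ χ ∈ (primitiveRoots d ℂ).image c, (if χ.Odd then ‖∑ v ∈ range M, χ (((v + 1 : ℕ)) : ZMod p)‖ ^ 2 else 0) := by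
        rw [sum_image]
        · refine sum_congr rfl fun ζ hζ => ?_
          obtain ⟨-, b, c'⟩ := hc ζ hζ
          rw [if_pos b, c']
        · intro x hx y hy hxy
          rw [← (hc x hx).1, ← (hc y hy).1, hxy]
      rw [h3]
      refine sum_le_sum_of_subset_of_nonneg (subset_univ _) fun χ _ _ => ?_
      split_ifs <;> positivity
    have h4 : (M : ℝ) = ((p : ℝ) - 1) / 2 := by rw [hM]; push_cast; ring
    rw [h4] at h2
    calc (∑ ζ ∈ primitiveRoots d ℂ, ‖P.eval₂ (Int.castRingHom ℂ) ζ‖ ^ 2) / (d.totient : ℝ)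
        ≤ (((p : ℝ) - 1) / 2) ^ 2 / (d.totient : ℝ) := by gcongr
      _ = ((p : ℝ) - 1) ^ 2 / (4 * d.totient) := by
        rw [div_pow, div_div]; norm_num

end Pool.Agent.X148.Orders
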