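import Pool.Agent.X148.QC3

set_option autoImplicit false

open Set Filter Topology

namespace Pool.Agent.X148.QC

/-! ### The uncountable set -/

/-- the limit set -/
def Einf : Set ℝ := {x | ∀ k, ∃ a ∈ E k, |x - a| ≤ 2 * d k}

theorem d_add_le (n l : ℕ) : d (n + l) ≤ d n * (1 / 2) ^ l := by
  induction l with
  | zero => simp
  | succ l ih =>
    have h1 := d_succ_le (n + l)
    have h2 := d_pos (n + l)
    rw [← add_assoc, pow_succ]
    linarith

theorem d_summable : Summable d := by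
  have h : ∀ n, d n ≤ d 0 * (1 / 2) ^ n := by
    intro n
    have := d_add_le 0 n
    rwa [zero_add] at this
  exact Summable.of_nonneg_of_le (fun n => (d_pos n).le) h
    ((summable_geometric_of_lt_one (by norm_num) (by norm_num)).mul_left _)

theorem tail_le (n : ℕ) : ∑' j, d (n + j) ≤ 2 * d n := by
  have h1 : Summable fun j => d (n + j) := by
    have := (summable_nat_add_iff n).2 d_summable
    refine this.congr fun j => ?_
    rw [add_comm]
  have h2 : Summable fun j : ℕ => d n * (1 / 2) ^ j :=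
    (summable_geometric_of_lt_one (by norm_num) (by norm_num)).mul_left _
  have h3 := h1.tsum_le_tsum (fun j => d_add_le n j) h2
  rw [tsum_mul_left, tsum_geometric_of_lt_one (by norm_num) (by norm_num)] at h3
  norm_num at h3
  linarith

/-- the terms of the expansion -/
noncomputable def tm (ε : ℕ → Bool) (k : ℕ) : ℝ := if ε k then d k else 0

theorem tm_nonneg (ε : ℕ → Bool) (k : ℕ) : 0 ≤ tm ε k := by
  unfold tm
  split_ifs
  · exact (d_pos k).le
  · exact le_refl _

theorem tm_le (ε : ℕ → Bool) (k : ℕ) : tm ε k ≤ d k := by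
  unfold tm
  split_ifs
  · exact le_refl _
  · exact (d_pos k).le

theorem tm_summable (ε : ℕ → Bool) : Summable (tm ε) :=
  Summable.of_nonneg_of_le (tm_nonneg ε) (tm_le ε) d_summable

/-- the coding map -/
noncomputable def Phi (ε : ℕ → Bool) : ℝ := ∑' k, tm ε k

theorem partial_mem (ε : ℕ → Bool) (n : ℕ) : ∑ k ∈ Finset.range n, tm ε k ∈ E n := by
  induction n with
  | zero => simp [E]
  | succ n ih =>
    rw [Finset.sum_range_succ, mem_E_succ]
    unfold tm at ih ⊢
    by_cases h : ε n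
    · right
      exact ⟨_, ih, by simp [h]⟩
    · left
      simpa [h] using ih

theorem Phi_tail (ε : ℕ → Bool) (n : ℕ) :
    0 ≤ Phi ε - ∑ k ∈ Finset.range n, tm ε k ∧
      Phi ε - ∑ k ∈ Finset.range n, tm ε k ≤ 2 * d n := by
  have h1 := (tm_summable ε).sum_add_tsum_nat_add n
  have h2 : Phi ε - ∑ k ∈ Finset.range n, tm ε k = ∑' k, tm ε (k + n) := by
    unfold Phi
    linarith
  rw [h2]
  constructor
  · exact tsum_nonneg fun k => tm_nonneg ε _
  · refine le_trans ?_ (tail_le n)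
    have h3 : Summable fun j => d (n + j) := by
      have := (summable_nat_add_iff n).2 d_summable
      refine this.congr fun j => ?_
      rw [add_comm]
    refine ((summable_nat_add_iff n).2 (tm_summable ε)).tsum_le_tsum (fun j => ?_) h3
    rw [add_comm n j]
    exact tm_le ε _

theorem Phi_mem (ε : ℕ → Bool) : Phi ε ∈ Einf := by
  intro k
  refine ⟨_, partial_mem ε k, ?_⟩
  have := Phi_tail ε k
  rw [abs_of_nonneg this.1]
  exact this.2

theorem Phi_injective : Function.Injective Phi := by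
  intro ε ε' h
  by_contra hne
  have hex : ∃ k, ε k ≠ ε' k := Function.ne_iff.1 hne
  classical
  have h1 := Nat.find_spec hex
  have h2 := fun m (hm : m < Nat.find hex) => Nat.find_min hex hm
  generalize Nat.find hex = k at h1 h2
  have hsum : ∑ j ∈ Finset.range k, tm ε j = ∑ j ∈ Finset.range k, tm ε' j := by
    apply Finset.sum_congr rfl
    intro j hj
    have := h2 j (Finset.mem_range.1 hj)
    rw [not_not] at this
    unfold tm
    rw [this]
  have t1 := Phi_tail ε (k + 1)
  have t2 := Phi_tail ε' (k + 1)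
  rw [Finset.sum_range_succ] at t1 t2
  rw [h, hsum] at t1
  have hd := d_succ_le k
  have hd0 := d_pos k
  cases hk : ε k with
  | false =>
    have hk' : ε' k = true := by
      cases hk' : ε' k with
      | false => rw [hk, hk'] at h1; exact absurd rfl h1
      | true => rfl
    have e1 : tm ε k = 0 := by simp [tm, hk]
    have e2 : tm ε' k = d k := by simp [tm, hk']
    rw [e1] at t1
    rw [e2] at t2
    linarith [t1.1, t1.2, t2.1, t2.2]
  | true =>
    have hk' : ε' k = false := by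
      cases hk' : ε' k with
      | false => rfl
      | true => rw [hk, hk'] at h1; exact absurd rfl h1
    have e1 : tm ε k = d k := by simp [tm, hk]
    have e2 : tm ε' k = 0 := by simp [tm, hk']
    rw [e1] at t1
    rw [e2] at t2
    linarith [t1.1, t1.2, t2.1, t2.2]

theorem Einf_uncountable : ¬ Einf.Countable := by
  intro h
  have h1 : (range Phi).Countable := h.mono (by rintro _ ⟨ε, rfl⟩; exact Phi_mem ε)
  have h2 : Countable (ℕ → Bool) := by
    have : Countable (range Phi) := h1.to_subtype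
    exact (Equiv.ofInjective Phi Phi_injective).injective.countable
  obtain ⟨F, hF⟩ := exists_surjective_nat (ℕ → Bool)
  obtain ⟨n, hn⟩ := hF (fun k => !(F k k))
  have h3 := congrFun hn n
  simp at h3

theorem no_interval {x y : ℝ} (hxy : x < y) (h : Icc x y ⊆ Einf) : False := by
  have ht : Tendsto (fun n => 5 * d (n + 1)) atTop (𝓝 (5 * 0)) :=
    (d_summable.tendsto_atTop_zero.comp (tendsto_add_atTop_nat 1)).const_mul 5
  rw [mul_zero] at ht
  obtain ⟨n, hn⟩ := ((tendsto_order.1 ht).2 (y - x) (sub_pos.2 hxy)).exists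
  have hd := d_pos (n + 1)
  have hds := d_succ_le n
  have hdn := d_pos n
  obtain ⟨a, ha, hxa⟩ := h (left_mem_Icc.2 hxy.le) (n + 1)
  obtain ⟨b, hb, hxb⟩ := h (show x + 5 * d (n + 1) ∈ Icc x y from ⟨by linarith, by linarith⟩) (n + 1)
  rw [abs_le] at hxa hxb
  have hab : a = b := by
    by_contra hne
    have h1 := E_gap n a ha b hb hne
    have h2 : |a - b| ≤ 9 * d (n + 1) := by
      rw [abs_le]; constructor <;> linarith
    linarith
  subst hab
  linarith

/-! ### Non-differentiability along the lines -/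

theorem cosh_mul_I_aux (s φ : ℝ) (hs : |s| ≤ 1) :
    ‖Complex.cosh ((s : ℂ) + (φ : ℂ) * Complex.I) - ((Real.cos φ : ℝ) : ℂ)‖ ≤ 3 * |s| := by
  have h1 : Complex.cosh ((φ : ℂ) * Complex.I) = ((Real.cos φ : ℝ) : ℂ) := by
    rw [Complex.cosh_mul_I, Complex.ofReal_cos]
  rw [← h1]
  have h2 := cosh_lip (z := (s : ℂ) + (φ : ℂ) * Complex.I) (w := (φ : ℂ) * Complex.I)
    (by simpa using hs) (by simp)
  rw [add_sub_cancel_right, Complex.norm_real, Real.norm_eq_abs] at h2
  exact h2

/-- the error bound -/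
noncomputable def om (n : ℕ) : ℝ := 64 * (S n * r n) + r (n + 1) / r n + d n / r n

theorem om_tendsto : Tendsto om atTop (𝓝 0) := by
  have hp : Tendsto (fun n : ℕ => (1 / 2 : ℝ) ^ n) atTop (𝓝 0) :=
    tendsto_pow_atTop_nhds_zero_of_lt_one (by norm_num) (by norm_num)
  have hp20 : ∀ n : ℕ, (1 / 2 : ℝ) ^ (n + 20) ≤ (1 / 2) ^ n := fun n =>
    pow_le_pow_of_le_one (by norm_num) (by norm_num) (by omega)
  have hp20' : ∀ n : ℕ, (1 / 2 : ℝ) ^ (n + 20) ≤ 1 := fun n =>
    pow_le_one₀ (by norm_num) (by norm_num)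
  have h1 : Tendsto (fun n => S n * r n) atTop (𝓝 0) := by
    rw [← tendsto_add_atTop_iff_nat 1]
    refine squeeze_zero (fun n => mul_nonneg (S_nonneg _) (r_pos _).le) (fun n => ?_) hp
    have hr := r_pos n
    simp only [S]
    rw [r_succ, d, one_div]
    calc (r n)⁻¹ * (r n * (1 / 2) ^ (n + 20) * (1 / 2) ^ (n + 20))
        = (1 / 2) ^ (n + 20) * (1 / 2) ^ (n + 20) := by field_simp
      _ ≤ (1 / 2) ^ n * 1 := by
          have h1 := hp20 n
          have h2 := hp20' n
          gcongr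
      _ = (1 / 2) ^ n := mul_one _
  have h2 : Tendsto (fun n => r (n + 1) / r n) atTop (𝓝 0) := by
    refine squeeze_zero (fun n => div_nonneg (r_pos _).le (r_pos _).le) (fun n => ?_) hp
    have hr := r_pos n
    rw [r_succ, d]
    calc r n * (1 / 2) ^ (n + 20) * (1 / 2) ^ (n + 20) / r n
        = (1 / 2) ^ (n + 20) * (1 / 2) ^ (n + 20) := by field_simp
      _ ≤ (1 / 2) ^ n * 1 := by
          have h1 := hp20 n
          have h2 := hp20' n
          gcongr
      _ = (1 / 2) ^ n := mul_one _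
  have h3 : Tendsto (fun n => d n / r n) atTop (𝓝 0) := by
    refine squeeze_zero (fun n => div_nonneg (d_pos _).le (r_pos _).le) (fun n => ?_) hp
    have hr := r_pos n
    rw [d]
    calc r n * (1 / 2) ^ (n + 20) / r n = (1 / 2) ^ (n + 20) := by field_simp
      _ ≤ (1 / 2) ^ n := hp20 n
  have := ((h1.const_mul 64).add h2).add h3
  rw [mul_zero, add_zero, add_zero] at this
  exact this

theorem half_ok : ∀ k : ℕ, 0 < (1 / 2 : ℝ) ^ (k + 2) ∧ (1 / 2 : ℝ) ^ (k + 2) ≤ 1 ∧
    12 * c * r (k + 1) ≤ (1 / 2 : ℝ) ^ (k + 2) * r k := by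
  intro k
  have hc : c = 1 / 2000 := rfl
  have hr := r_pos k
  refine ⟨by positivity, pow_le_one₀ (by norm_num) (by norm_num), ?_⟩
  rw [r_succ, d, hc]
  have h1 : (1 / 2 : ℝ) ^ (k + 20) ≤ (1 / 2) ^ (k + 2) :=
    pow_le_pow_of_le_one (by norm_num) (by norm_num) (by omega)
  have h2 : (1 / 2 : ℝ) ^ (k + 20) ≤ 1 := pow_le_one₀ (by norm_num) (by norm_num)
  calc 12 * (1 / 2000) * (r k * (1 / 2) ^ (k + 20) * (1 / 2) ^ (k + 20))
      ≤ 1 * (r k * (1 / 2) ^ (k + 2) * 1) := by
        gcongr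
        norm_num
    _ = (1 / 2 : ℝ) ^ (k + 2) * r k := by ring

theorem key_estimate {x : ℂ} (hx : x.re ∈ Einf) (n : ℕ) :
    ∃ (D : ℂ) (θ : ℝ), 1 / 2 ≤ ‖D‖ ∧ ∀ t : ℝ, 0 ≤ t → t ≤ 7 →
      ‖f (x + ((t * r n : ℝ) : ℂ) * Complex.I) - f x -
        D * ((r n : ℂ) * ((t : ℂ) * Complex.I + ((c * (Real.cos (θ + t) - Real.cos θ) : ℝ) : ℂ)))‖ ≤
        ‖D‖ * (om n * r n) := by
  have hc : c = 1 / 2000 := rfl
  have hcp := c_pos
  have hr := r_pos n
  have hp : ‖h n x - x‖ ≤ 6 * c * r n := h_disp n x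
  obtain ⟨D, hD0, hD1, hD⟩ := near_affine (fun k => (1 / 2) ^ (k + 2)) half_ok n x (h n x)
    (fun k _ => by
      obtain ⟨a, ha, hxa⟩ := hx k
      have h1 := d_le k
      have h2 := r_pos k
      refine ⟨a, ha, by linarith, hxa.trans ?_⟩
      unfold d
      have h3 : (1 / 2 : ℝ) ^ (k + 20) ≤ (1 / 2) ^ (k + 2) * (1 / 4) := by
        have : (1 / 2 : ℝ) ^ (k + 2) * (1 / 4) = (1 / 2) ^ (k + 4) := by
          rw [pow_add, pow_add]; norm_num; ring
        rw [this]
        exact pow_le_pow_of_le_one (by norm_num) (by norm_num) (by omega)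
      calc 2 * (r k * (1 / 2) ^ (k + 20)) ≤ 2 * (r k * ((1 / 2) ^ (k + 2) * (1 / 4))) := by gcongr
        _ = (1 / 2) ^ (k + 2) * r k / 2 := by ring) hp
  have hsum : ∑ k ∈ Finset.range n, (1 / 2 : ℝ) ^ (k + 2) ≤ 1 / 2 := by
    have h1 : ∀ m : ℕ, ∑ k ∈ Finset.range m, (1 / 2 : ℝ) ^ (k + 2) = 1 / 2 - (1 / 2) ^ (m + 1) := by
      intro m
      induction m with
      | zero => norm_num
      | succ m ih => rw [Finset.sum_range_succ, ih]; ring
    rw [h1]
    have : 0 < (1 / 2 : ℝ) ^ (n + 1) := by positivity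
    linarith
  obtain ⟨a, ha, hxa⟩ := hx n
  refine ⟨D, x.im / r n, by linarith, fun t ht0 ht7 => ?_⟩
  set θ : ℝ := x.im / r n with hθ
  set z : ℂ := x + ((t * r n : ℝ) : ℂ) * Complex.I with hz
  have hzx : z - x = ((t * r n : ℝ) : ℂ) * Complex.I := by rw [hz]; ring
  have hzn : ‖z - x‖ = t * r n := by
    rw [hzx, norm_mul, Complex.norm_I, mul_one, Complex.norm_real,
      Real.norm_of_nonneg (by positivity)]
  have hzre : z.re = x.re := by rw [hz]; simp
  have hrs := r_succ_le_r n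
  have hr1 := r_pos (n + 1)
  -- the displacement
  have hup := h_upper n 1 z x
  rw [hzn, pow_one] at hup
  have htr : t * r n ≤ 7 * r n := by gcongr
  have hw8 : ‖h n z - h n x‖ ≤ 8 * r n := by
    rw [hc] at hup
    linarith
  have hA := hD (h n z) hw8
  have hA' : S n * ‖D‖ * ‖h n z - h n x‖ ^ 2 ≤ ‖D‖ * (64 * (S n * r n) * r n) := by
    have h1 := S_nonneg n
    calc S n * ‖D‖ * ‖h n z - h n x‖ ^ 2 ≤ S n * ‖D‖ * (8 * r n) ^ 2 := by gcongr
      _ = ‖D‖ * (64 * (S n * r n) * r n) := by ring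
  -- replace `h n` by `g n`
  have hB : ‖(h n z - h n x) - (g n z - g n x)‖ ≤ r (n + 1) := by
    rw [h_rec n z, h_rec n x]
    have h1 := g_upper n (h (n + 1) z) z
    have h2 := g_upper n (h (n + 1) x) x
    have h3 := h_disp (n + 1) z
    have h4 := h_disp (n + 1) x
    have e : g n (h (n + 1) z) - g n (h (n + 1) x) - (g n z - g n x) =
        (g n (h (n + 1) z) - g n z) - (g n (h (n + 1) x) - g n x) := by ring
    rw [e]
    refine (norm_sub_le _ _).trans ?_
    rw [hc] at h3 h4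
    linarith
  -- the map `g n` on the line
  have hd := d_le n
  have hdp := d_pos n
  have hgz : g n z = z + ((c * r n : ℝ) : ℂ) * Complex.cosh ((z - a) / (r n : ℂ)) :=
    g_inner ha (by rw [hzre]; linarith)
  have hgx : g n x = x + ((c * r n : ℝ) : ℂ) * Complex.cosh ((x - a) / (r n : ℂ)) :=
    g_inner ha (by linarith)
  set s : ℝ := (x.re - a) / r n with hs
  have hsabs : |s| ≤ 2 * (d n / r n) := by
    rw [hs, abs_div, abs_of_pos hr, ← mul_div_assoc]
    exact div_le_div_of_nonneg_right hxa hr.le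
  have hdr : d n / r n ≤ 1 / 1000000 := by
    rw [div_le_iff₀ hr]; linarith
  have hs1 : |s| ≤ 1 := by linarith
  have hrc : (r n : ℂ) ≠ 0 := by exact_mod_cast hr.ne'
  have hαx : (x - a) / (r n : ℂ) = (s : ℂ) + (θ : ℂ) * Complex.I := by
    apply Complex.ext
    · rw [re_div]; simp [hs]
    · rw [Complex.div_ofReal_im]; simp [hθ]
  have hαz : (z - a) / (r n : ℂ) = (s : ℂ) + ((θ + t : ℝ) : ℂ) * Complex.I := by
    have : (z - a) / (r n : ℂ) = (x - a) / (r n : ℂ) + (t : ℂ) * Complex.I := by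
      rw [hz]
      push_cast
      field_simp
      ring
    rw [this, hαx]
    push_cast
    ring
  have hcz := cosh_mul_I_aux s (θ + t) hs1
  have hcx := cosh_mul_I_aux s θ hs1
  have hC : ‖(g n z - g n x) - (r n : ℂ) * ((t : ℂ) * Complex.I +
      ((c * (Real.cos (θ + t) - Real.cos θ) : ℝ) : ℂ))‖ ≤ d n := by
    rw [hgz, hgx, hαz, hαx]
    have e : z + ((c * r n : ℝ) : ℂ) * Complex.cosh ((s : ℂ) + ((θ + t : ℝ) : ℂ) * Complex.I) -
        (x + ((c * r n : ℝ) : ℂ) * Complex.cosh ((s : ℂ) + (θ : ℂ) * Complex.I)) -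
        (r n : ℂ) * ((t : ℂ) * Complex.I + ((c * (Real.cos (θ + t) - Real.cos θ) : ℝ) : ℂ)) =
        ((c * r n : ℝ) : ℂ) * ((Complex.cosh ((s : ℂ) + ((θ + t : ℝ) : ℂ) * Complex.I) -
          ((Real.cos (θ + t) : ℝ) : ℂ)) -
          (Complex.cosh ((s : ℂ) + (θ : ℂ) * Complex.I) - ((Real.cos θ : ℝ) : ℂ))) := by
      rw [hz]
      push_cast
      ring
    rw [e, norm_mul, Complex.norm_real, Real.norm_of_nonneg (by positivity)]
    have h1 := norm_sub_le (Complex.cosh ((s : ℂ) + ((θ + t : ℝ) : ℂ) * Complex.I) -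
          ((Real.cos (θ + t) : ℝ) : ℂ)) (Complex.cosh ((s : ℂ) + (θ : ℂ) * Complex.I) -
          ((Real.cos θ : ℝ) : ℂ))
    calc c * r n * _ ≤ c * r n * (12 * (d n / r n)) := by
          gcongr
          linarith
      _ = 12 * c * d n := by field_simp
      _ ≤ d n := by rw [hc]; linarith
  -- put together
  rw [f_eq n z, f_eq n x]
  set V : ℂ := (r n : ℂ) * ((t : ℂ) * Complex.I +
      ((c * (Real.cos (θ + t) - Real.cos θ) : ℝ) : ℂ)) with hV
  have e : F n (h n z) - F n (h n x) - D * V =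
      (F n (h n z) - F n (h n x) - D * (h n z - h n x)) +
      D * (((h n z - h n x) - (g n z - g n x)) + ((g n z - g n x) - V)) := by ring
  rw [e]
  refine (norm_add_le _ _).trans ?_
  rw [norm_mul]
  have h1 := norm_add_le ((h n z - h n x) - (g n z - g n x)) ((g n z - g n x) - V)
  have h2 : ‖D‖ * ‖((h n z - h n x) - (g n z - g n x)) + ((g n z - g n x) - V)‖ ≤
      ‖D‖ * (r (n + 1) + d n) := by
    gcongr
    linarith
  have h3 : ‖D‖ * (om n * r n) = ‖D‖ * (64 * (S n * r n) * r n) + ‖D‖ * (r (n + 1) + d n) := by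
    unfold om
    field_simp
    ring
  rw [h3]
  linarith

theorem not_differentiable {a0 : ℝ} (ha : a0 ∈ Einf) (y0 : ℝ) :
    ¬ DifferentiableAt ℝ (fun y : ℝ => f ((a0 : ℂ) + (y : ℂ) * Complex.I)) y0 := by
  intro hdiff
  set x : ℂ := (a0 : ℂ) + (y0 : ℂ) * Complex.I with hx
  have hxre : x.re ∈ Einf := by rw [hx]; simpa using ha
  set v := deriv (fun y : ℝ => f ((a0 : ℂ) + (y : ℂ) * Complex.I)) y0 with hv
  have hder : HasDerivAt (fun y : ℝ => f ((a0 : ℂ) + (y : ℂ) * Complex.I)) v y0 :=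
    hdiff.hasDerivAt
  have hQ : ∀ t : ℝ, 0 < t → Tendsto (fun n => (t * r n)⁻¹ •
      (f (x + ((t * r n : ℝ) : ℂ) * Complex.I) - f x)) atTop (𝓝 v) := by
    intro t ht
    have h1 : Tendsto (fun n => t * r n) atTop (𝓝[≠] 0) := by
      rw [tendsto_nhdsWithin_iff]
      refine ⟨by simpa using r_tendsto.const_mul t, Eventually.of_forall fun n => ?_⟩
      have := r_pos n
      exact (mul_pos ht this).ne'
    have h2 := (hasDerivAt_iff_tendsto_slope_zero.1 hder).comp h1
    refine h2.congr fun n => ?_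
    simp only [Function.comp]
    congr 3
    rw [hx]
    push_cast
    ring
  choose D θ hD1 hD2 using fun n => key_estimate hxre n
  have hpi := Real.pi_pos
  have hpi3 := Real.pi_gt_three
  have hpi4 := Real.pi_lt_d2
  -- the main inequality
  have hmain : ∀ t : ℝ, 1 ≤ t → t ≤ 7 → Tendsto (fun n => Real.cos (θ n + t) - Real.cos (θ n))
      atTop (𝓝 0) := by
    intro t ht1 ht7
    have htp : 0 < t := by linarith
    have hdiffQ : Tendsto (fun n => ‖(t * r n)⁻¹ • (f (x + ((t * r n : ℝ) : ℂ) * Complex.I) - f x) -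
        ((2 * Real.pi) * r n)⁻¹ • (f (x + (((2 * Real.pi) * r n : ℝ) : ℂ) * Complex.I) - f x)‖)
        atTop (𝓝 0) := by
      have := ((hQ t htp).sub (hQ (2 * Real.pi) (by positivity))).norm
      simpa using this
    have hbound : ∀ n, ‖Real.cos (θ n + t) - Real.cos (θ n)‖ ≤ (t / c) * (2 * om n + 2 *
        ‖(t * r n)⁻¹ • (f (x + ((t * r n : ℝ) : ℂ) * Complex.I) - f x) -
        ((2 * Real.pi) * r n)⁻¹ •
          (f (x + (((2 * Real.pi) * r n : ℝ) : ℂ) * Complex.I) - f x)‖) := by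
      intro n
      have hr := r_pos n
      have hcp := c_pos
      have h1 := hD2 n t (by linarith) ht7
      have h2 := hD2 n (2 * Real.pi) (by positivity) (by linarith)
      rw [Real.cos_add_two_pi, sub_self, mul_zero, Complex.ofReal_zero, add_zero] at h2
      set A := f (x + ((t * r n : ℝ) : ℂ) * Complex.I) - f x with hA
      set B := f (x + (((2 * Real.pi) * r n : ℝ) : ℂ) * Complex.I) - f x with hB
      set K : ℝ := Real.cos (θ n + t) - Real.cos (θ n) with hK
      have hDpos : 0 < ‖D n‖ := by linarith [hD1 n]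
      clear_value A B K
      -- normalised inequalities
      have e1 : ‖(t * r n)⁻¹ • A - D n * (Complex.I + ((c / t * K : ℝ) : ℂ))‖ ≤ ‖D n‖ * om n := by
        have e : (t * r n)⁻¹ • A - D n * (Complex.I + ((c / t * K : ℝ) : ℂ)) =
            (t * r n)⁻¹ • (A - D n * ((r n : ℂ) * ((t : ℂ) * Complex.I + ((c * K : ℝ) : ℂ)))) := by
          rw [Complex.real_smul, Complex.real_smul, mul_sub]
          congr 1
          have htc : (t : ℂ) ≠ 0 := by exact_mod_cast htp.ne'
          have hrc : (r n : ℂ) ≠ 0 := by exact_mod_cast hr.ne'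
          push_cast
          field_simp
        rw [e, norm_smul, norm_inv, Real.norm_of_nonneg (by positivity),
          inv_mul_le_iff₀ (by positivity)]
        refine h1.trans ?_
        have hom : 0 ≤ om n := by
          have h3 := S_nonneg n
          have h4 := r_pos (n + 1)
          have h5 := d_pos n
          unfold om; positivity
        have h6 : 0 ≤ ‖D n‖ * (om n * r n) := by positivity
        nlinarith
      have e2 : ‖((2 * Real.pi) * r n)⁻¹ • B - D n * Complex.I‖ ≤ ‖D n‖ * om n := by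
        have e : ((2 * Real.pi) * r n)⁻¹ • B - D n * Complex.I =
            ((2 * Real.pi) * r n)⁻¹ • (B - D n * ((r n : ℂ) * (((2 * Real.pi : ℝ) : ℂ) *
              Complex.I))) := by
          rw [Complex.real_smul, Complex.real_smul, mul_sub]
          congr 1
          have htc : ((Real.pi : ℝ) : ℂ) ≠ 0 := by exact_mod_cast hpi.ne'
          have hrc : (r n : ℂ) ≠ 0 := by exact_mod_cast hr.ne'
          push_cast
          field_simp
        rw [e, norm_smul, norm_inv, Real.norm_of_nonneg (by positivity),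
          inv_mul_le_iff₀ (by positivity)]
        refine h2.trans ?_
        have hom : 0 ≤ om n := by
          have h3 := S_nonneg n
          have h4 := r_pos (n + 1)
          have h5 := d_pos n
          unfold om; positivity
        have h6 : 0 ≤ ‖D n‖ * (om n * r n) := by positivity
        nlinarith
      have e3 : ‖D n‖ * (c / t * |K|) ≤ 2 * (‖D n‖ * om n) +
          ‖(t * r n)⁻¹ • A - ((2 * Real.pi) * r n)⁻¹ • B‖ := by
        have e : D n * ((c / t * K : ℝ) : ℂ) =
            (((t * r n)⁻¹ • A - ((2 * Real.pi) * r n)⁻¹ • B) -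
            ((t * r n)⁻¹ • A - D n * (Complex.I + ((c / t * K : ℝ) : ℂ)))) +
            (((2 * Real.pi) * r n)⁻¹ • B - D n * Complex.I) := by ring
        have h3 : ‖D n * ((c / t * K : ℝ) : ℂ)‖ = ‖D n‖ * (c / t * |K|) := by
          rw [norm_mul, Complex.norm_real, Real.norm_eq_abs, abs_mul,
            abs_of_pos (by positivity : 0 < c / t)]
        rw [← h3, e]
        have h4 := norm_add_le (((t * r n)⁻¹ • A - ((2 * Real.pi) * r n)⁻¹ • B) -
            ((t * r n)⁻¹ • A - D n * (Complex.I + ((c / t * K : ℝ) : ℂ))))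
            (((2 * Real.pi) * r n)⁻¹ • B - D n * Complex.I)
        have h5 := norm_sub_le ((t * r n)⁻¹ • A - ((2 * Real.pi) * r n)⁻¹ • B)
            ((t * r n)⁻¹ • A - D n * (Complex.I + ((c / t * K : ℝ) : ℂ)))
        linarith
      set N := ‖(t * r n)⁻¹ • A - ((2 * Real.pi) * r n)⁻¹ • B‖ with hN
      have hN0 : 0 ≤ N := norm_nonneg _
      have e4 : c / t * |K| ≤ 2 * om n + 2 * N := by
        have h6 : ‖D n‖ * (c / t * |K|) ≤ ‖D n‖ * (2 * om n + 2 * N) := by
          have h7 := hD1 n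
          nlinarith
        exact le_of_mul_le_mul_left h6 hDpos
      rw [Real.norm_eq_abs]
      have e5 : |K| = t / c * (c / t * |K|) := by field_simp
      rw [e5]
      gcongr
    refine squeeze_zero_norm hbound ?_
    have h1 := ((om_tendsto.const_mul 2).add (hdiffQ.const_mul 2)).const_mul (t / c)
    simpa using h1
  have h1 := hmain Real.pi (by linarith) (by linarith)
  have h2 := hmain (Real.pi / 2) (by linarith) (by linarith)
  simp only [Real.cos_add_pi, Real.cos_add_pi_div_two] at h1 h2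
  have hcos : Tendsto (fun n => Real.cos (θ n)) atTop (𝓝 0) := by
    have := h1.const_mul (-1 / 2)
    simp only [mul_zero] at this
    refine this.congr fun n => ?_
    ring
  have hsin : Tendsto (fun n => Real.sin (θ n)) atTop (𝓝 0) := by
    have := (h2.add hcos).neg
    simp only [add_zero, neg_zero] at this
    refine this.congr fun n => ?_
    ring
  have h3 := (hsin.pow 2).add (hcos.pow 2)
  have h4 : Tendsto (fun n => Real.sin (θ n) ^ 2 + Real.cos (θ n) ^ 2) atTop (𝓝 1) := by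
    simp only [Real.sin_sq_add_cos_sq]
    exact tendsto_const_nhds
  have h5 := tendsto_nhds_unique h3 h4
  norm_num at h5

/-! ### Curves -/

theorem hitting {σ : ℝ → ℝ} {s t : ℝ} (hst : s ≤ t) (hσ : ContinuousOn σ (Icc s t))
    (hlt : σ s ≤ σ t) : ∃ φ : ℝ → ℝ, MonotoneOn φ (Icc (σ s) (σ t)) ∧
      MapsTo φ (Icc (σ s) (σ t)) (Icc s t) ∧ ∀ y ∈ Icc (σ s) (σ t), σ (φ y) = y := by
  set A : ℝ → Set ℝ := fun y => {u ∈ Icc s t | σ u = y} with hA
  have hne : ∀ y ∈ Icc (σ s) (σ t), (A y).Nonempty := by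
    intro y hy
    obtain ⟨u, hu, huy⟩ := intermediate_value_Icc hst hσ hy
    exact ⟨u, hu, huy⟩
  have hcl : ∀ y, IsClosed (A y) := by
    intro y
    have : A y = Icc s t ∩ σ ⁻¹' {y} := by ext; simp [hA]
    rw [this]
    exact hσ.preimage_isClosed_of_isClosed isClosed_Icc isClosed_singleton
  have hbd : ∀ y, BddBelow (A y) := fun y => ⟨s, fun u hu => hu.1.1⟩
  have hmem : ∀ y ∈ Icc (σ s) (σ t), sInf (A y) ∈ A y := fun y hy =>
    (hcl y).csInf_mem (hne y hy) (hbd y)
  refine ⟨fun y => sInf (A y), ?_, fun y hy => (hmem y hy).1, fun y hy => (hmem y hy).2⟩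
  intro y hy y' hy' hyy'
  have h1 := hmem y' hy'
  simp only
  have h2 : ContinuousOn σ (Icc s (sInf (A y'))) :=
    hσ.mono (Icc_subset_Icc_right h1.1.2)
  have h3 : y ∈ Icc (σ s) (σ (sInf (A y'))) := ⟨hy.1, by rw [h1.2]; exact hyy'⟩
  obtain ⟨u, hu, huy⟩ := intermediate_value_Icc h1.1.1 h2 h3
  exact (csInf_le (hbd y) ⟨⟨hu.1, hu.2.trans h1.1.2⟩, huy⟩).trans hu.2

theorem not_bv {a0 : ℝ} (ha : a0 ∈ Einf) {α β : ℝ} (hαβ : α < β) :
    ¬ BoundedVariationOn (fun y : ℝ => f ((a0 : ℂ) + (y : ℂ) * Complex.I)) (Icc α β) := by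
  intro hbv
  have h1 := hbv.locallyBoundedVariationOn.ae_differentiableWithinAt_of_mem
  have h2 : ∃ y ∈ Ioo α β, y ∈ Icc α β → DifferentiableWithinAt ℝ
      (fun y : ℝ => f ((a0 : ℂ) + (y : ℂ) * Complex.I)) (Icc α β) y := by
    by_contra hcon
    push Not at hcon
    rw [MeasureTheory.ae_iff] at h1
    have h3 : MeasureTheory.volume (Ioo α β) = 0 := by
      refine MeasureTheory.measure_mono_null (fun y hy => ?_) h1
      intro himp
      exact (hcon y hy).2 (himp (hcon y hy).1)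
    rw [Real.volume_Ioo, ENNReal.ofReal_eq_zero] at h3
    linarith
  obtain ⟨y, hy, himp⟩ := h2
  exact not_differentiable ha y
    ((himp (Ioo_subset_Icc_self hy)).differentiableAt (Icc_mem_nhds hy.1 hy.2))

theorem curve_const {γ : ℝ → ℂ} (hγ : ContinuousOn γ (Icc 0 1))
    (hbv : BoundedVariationOn γ (Icc 0 1))
    (hmem : ∀ t ∈ Icc (0 : ℝ) 1, γ t ∈ fh '' {z : ℂ | z.re ∈ Einf}) :
    ∀ s ∈ Icc (0 : ℝ) 1, ∀ t ∈ Icc (0 : ℝ) 1, γ s = γ t := by
  set η : ℝ → ℂ := fun τ => fh.symm (γ τ) with hη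
  have hηc : ContinuousOn η (Icc 0 1) := fh.symm.continuous.comp_continuousOn hγ
  have hηre : ∀ τ ∈ Icc (0 : ℝ) 1, (η τ).re ∈ Einf := by
    intro τ hτ
    obtain ⟨z, hz, hzγ⟩ := hmem τ hτ
    have : η τ = z := by rw [hη]; simp only; rw [← hzγ]; exact fh.symm_apply_apply z
    rw [this]; exact hz
  have hγη : ∀ τ, γ τ = f (η τ) := by
    intro τ
    rw [← fh_apply, hη]
    exact (fh.apply_symm_apply _).symm
  have hrec : ContinuousOn (fun τ => (η τ).re) (Icc 0 1) :=
    Complex.continuous_re.comp_continuousOn hηc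
  have himc : ContinuousOn (fun τ => (η τ).im) (Icc 0 1) :=
    Complex.continuous_im.comp_continuousOn hηc
  have hre_const : ∀ s ∈ Icc (0 : ℝ) 1, ∀ t ∈ Icc (0 : ℝ) 1, (η s).re = (η t).re := by
    intro s hs t ht
    by_contra hne
    have hpre : IsPreconnected ((fun τ => (η τ).re) '' Icc 0 1) :=
      isPreconnected_Icc.image _ hrec
    have hsub : (fun τ => (η τ).re) '' Icc 0 1 ⊆ Einf := by
      rintro _ ⟨τ, hτ, rfl⟩
      exact hηre τ hτ
    rcases lt_or_gt_of_ne hne with hlt | hlt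
    · exact no_interval hlt ((hpre.Icc_subset ⟨s, hs, rfl⟩ ⟨t, ht, rfl⟩).trans hsub)
    · exact no_interval hlt ((hpre.Icc_subset ⟨t, ht, rfl⟩ ⟨s, hs, rfl⟩).trans hsub)
  set a0 : ℝ := (η 0).re with ha0
  have ha : a0 ∈ Einf := hηre 0 (by simp)
  set σ : ℝ → ℝ := fun τ => (η τ).im with hσ
  have hform : ∀ τ ∈ Icc (0 : ℝ) 1, γ τ = f ((a0 : ℂ) + (σ τ : ℂ) * Complex.I) := by
    intro τ hτ
    rw [hγη τ]
    congr 1
    apply Complex.ext
    · have := hre_const τ hτ 0 (by simp)
      simpa [ha0] using this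
    · simp [hσ]
  -- the main step
  have key : ∀ s ∈ Icc (0 : ℝ) 1, ∀ t ∈ Icc (0 : ℝ) 1, s ≤ t → σ s = σ t := by
    intro s hs t ht hst
    have hsub : Icc s t ⊆ Icc (0 : ℝ) 1 := Icc_subset_Icc hs.1 ht.2
    by_contra hne
    rcases lt_or_gt_of_ne hne with hlt | hlt
    · obtain ⟨φ, hφm, hφmaps, hφ⟩ := hitting hst (himc.mono hsub) hlt.le
      apply not_bv ha hlt
      have h1 := eVariationOn.comp_le_of_monotoneOn γ φ hφm (hφmaps.mono_right hsub)
      have h2 : eVariationOn (fun y : ℝ => f ((a0 : ℂ) + (y : ℂ) * Complex.I)) (Icc (σ s) (σ t)) =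
          eVariationOn (γ ∘ φ) (Icc (σ s) (σ t)) := by
        apply eVariationOn.eq_of_eqOn
        intro y hy
        simp only [Function.comp]
        rw [hform (φ y) (hsub (hφmaps hy))]
        have := hφ y hy
        change σ (φ y) = y at this
        rw [this]
      unfold BoundedVariationOn
      rw [h2]
      exact ne_top_of_le_ne_top hbv h1
    · obtain ⟨φ, hφm, hφmaps, hφ⟩ := hitting (σ := fun τ => -σ τ) hst (himc.mono hsub).neg
        (neg_le_neg hlt.le)
      apply not_bv ha hlt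
      have hmaps : MapsTo (fun y => φ (-y)) (Icc (σ t) (σ s)) (Icc s t) := by
        intro y hy
        exact hφmaps ⟨neg_le_neg hy.2, neg_le_neg hy.1⟩
      have hanti : AntitoneOn (fun y => φ (-y)) (Icc (σ t) (σ s)) := by
        intro y hy y' hy' hyy'
        exact hφm ⟨neg_le_neg hy'.2, neg_le_neg hy'.1⟩ ⟨neg_le_neg hy.2, neg_le_neg hy.1⟩
          (neg_le_neg hyy')
      have h1 := eVariationOn.comp_le_of_antitoneOn γ (fun y => φ (-y)) hanti
        (hmaps.mono_right hsub)
      have h2 : eVariationOn (fun y : ℝ => f ((a0 : ℂ) + (y : ℂ) * Complex.I)) (Icc (σ t) (σ s)) =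
          eVariationOn (γ ∘ fun y => φ (-y)) (Icc (σ t) (σ s)) := by
        apply eVariationOn.eq_of_eqOn
        intro y hy
        simp only [Function.comp]
        rw [hform (φ (-y)) (hsub (hmaps hy))]
        have := hφ (-y) ⟨neg_le_neg hy.2, neg_le_neg hy.1⟩
        have h3 : σ (φ (-y)) = y := by
          have : -σ (φ (-y)) = -y := this
          linarith
        rw [h3]
      unfold BoundedVariationOn
      rw [h2]
      exact ne_top_of_le_ne_top hbv h1
  intro s hs t ht
  rw [hform s hs, hform t ht]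
  rcases le_total s t with h | h
  · rw [key s hs t ht h]
  · rw [key t ht s hs h]

theorem main :
    ∃ f : ℂ ≃ₜ ℂ,
      (∃ H : ℝ, ∀ x : ℂ, ∃ δ > (0 : ℝ), ∀ y z : ℂ,
          dist y x = dist z x → dist y x < δ →
            dist (f y) (f x) ≤ H * dist (f z) (f x)) ∧
      ∃ E : Set ℝ, ¬ E.Countable ∧
        ∀ γ : ℝ → ℂ, ContinuousOn γ (Set.Icc 0 1) →
          BoundedVariationOn γ (Set.Icc 0 1) →
          (∀ t ∈ Set.Icc (0 : ℝ) 1, γ t ∈ f '' {z : ℂ | z.re ∈ E}) →
          ∀ s ∈ Set.Icc (0 : ℝ) 1, ∀ t ∈ Set.Icc (0 : ℝ) 1, γ s = γ t :=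
  ⟨fh, ⟨2, qc⟩, Einf, Einf_uncountable, fun _ h1 h2 h3 => curve_const h1 h2 h3⟩

end Pool.Agent.X148.QC
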