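import Mathlib

set_option autoImplicit false

/-!
# Alternating sums over permutations: a recursion which can be evaluated by the kernel
-/

namespace Pool.Agent.X148.OrC

open Equiv

/-- sum over the choices of an element of a list; the head replaces the chosen element -/
def sumPicks (L : List ℕ) (F : ℕ → List ℕ → ℤ) : ℤ :=
  match L with
  | [] => 0
  | h :: t => F h t - ((List.range t.length).map fun q => F (t.getD q 0) (t.set q h)).sum

theorem sumPicks_congr {L : List ℕ} {F F' : ℕ → List ℕ → ℤ}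
    (h : ∀ x R, R.length + 1 = L.length → F x R = F' x R) : sumPicks L F = sumPicks L F' := by
  cases L with
  | nil => rfl
  | cons a t =>
    simp only [sumPicks]
    rw [h a t (by simp)]
    congr 2
    apply List.map_congr_left
    intro q _
    exact h _ _ (by simp)

theorem sumPicks_mul (L : List ℕ) (c : ℤ) (F : ℕ → List ℕ → ℤ) :
    sumPicks L (fun x R => c * F x R) = c * sumPicks L F := by
  cases L with
  | nil => simp [sumPicks]
  | cons a t =>
    unfold sumPicks
    rw [mul_sub]
    rw [← List.sum_map_mul_left]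

theorem sumPicks_ofFn {m : ℕ} (v : Fin (m + 1) → ℕ) (F : ℕ → List ℕ → ℤ) :
    sumPicks (List.ofFn v) F = ∑ p : Fin (m + 1), (if p = 0 then (1 : ℤ) else -1) *
      F (v p) (List.ofFn fun x : Fin m => v (swap 0 p x.succ)) := by
  rw [Fin.sum_univ_succ]
  rw [List.ofFn_succ]
  unfold sumPicks
  simp only [if_true, one_mul, swap_self, refl_apply]
  rw [sub_eq_add_neg]
  congr 1
  simp only [Fin.succ_ne_zero, if_false, neg_mul, one_mul, Finset.sum_neg_distrib, List.length_ofFn]
  congr 1
  rw [← List.sum_ofFn]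
  congr 1
  apply List.ext_getElem
  · simp
  intro q h1 h2
  simp only [List.length_map, List.length_range] at h1
  simp only [List.getElem_map, List.getElem_range, List.getElem_ofFn]
  have h3 : (List.ofFn fun i : Fin m => v i.succ).getD q 0 = v (Fin.succ ⟨q, h1⟩) := by
    rw [List.getD_eq_getElem _ _ (by simpa using h1)]
    simp
  rw [h3]
  congr 1
  apply List.ext_getElem
  · simp
  intro x h4 h5
  simp only [List.length_set, List.length_ofFn] at h4
  rw [List.getElem_set]
  simp only [List.getElem_ofFn]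
  by_cases hx : q = x
  · subst hx
    simp
  · rw [if_neg hx, swap_apply_of_ne_of_ne (Fin.succ_ne_zero _)]
    intro h6
    rw [Fin.succ_inj] at h6
    exact hx (congrArg Fin.val h6).symm

/-- full recursion -/
def ev : ℕ → List ℕ → (List ℕ → ℤ) → ℤ
  | 0, _, G => G []
  | m + 1, L, G => sumPicks L fun x R => ev m R fun w => G (x :: w)

theorem ev_mul (m : ℕ) : ∀ (L : List ℕ) (c : ℤ) (G : List ℕ → ℤ),
    ev m L (fun w => c * G w) = c * ev m L G := by
  induction m with
  | zero => intro L c G; rfl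
  | succ m ih =>
    intro L c G
    simp only [ev]
    rw [← sumPicks_mul]
    congr 1
    funext x R
    exact ih R c _

theorem sum_perm_eq_ev {m : ℕ} (v : Fin m → ℕ) (G : List ℕ → ℤ) :
    ∑ σ : Perm (Fin m), ((Perm.sign σ : ℤˣ) : ℤ) * G (List.ofFn fun i => v (σ i)) =
      ev m (List.ofFn v) G := by
  induction m generalizing G with
  | zero => simp [ev]
  | succ m ih =>
    simp only [ev]
    rw [sumPicks_ofFn]
    rw [← Equiv.sum_comp Perm.decomposeFin.symm, Fintype.sum_prod_type]
    apply Finset.sum_congr rfl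
    intro p _
    rw [← ih, Finset.mul_sum]
    apply Finset.sum_congr rfl
    intro e _
    have h1 : ((Perm.sign (Perm.decomposeFin.symm (p, e)) : ℤˣ) : ℤ) =
        (if p = 0 then (1 : ℤ) else -1) * ((Perm.sign e : ℤˣ) : ℤ) := by
      rw [Perm.decomposeFin.symm_sign]
      push_cast
      by_cases hp : p = 0
      · simp [hp]
      · simp [hp]
    have h2 : (List.ofFn fun i => v ((Perm.decomposeFin.symm (p, e)) i)) =
        v p :: List.ofFn fun i : Fin m => v (swap 0 p (e i).succ) := by
      rw [List.ofFn_succ]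
      congr 1
      · rw [Perm.decomposeFin_symm_apply_zero]
      · congr 1
        funext i
        rw [Perm.decomposeFin_symm_apply_succ]
    rw [h1, h2, mul_assoc]

/-- the product over the blocks -/
def pg (o : ℕ → ℕ → ℕ → ℕ → ℤ) : ℕ → ℕ → ℕ → List ℕ → ℤ
  | j + 1, k, l, b :: c :: w => o k l b c * pg o j (k + 1) c w
  | _, _, _, _ => 1

/-- evaluation by blocks -/
def Eg (o : ℕ → ℕ → ℕ → ℕ → ℤ) : ℕ → ℕ → ℕ → List ℕ → ℤ
  | 0, _, _, _ => 1
  | j + 1, k, l, L => sumPicks L fun b R => sumPicks R fun c R' => o k l b c * Eg o j (k + 1) c R'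

theorem ev_pg (o : ℕ → ℕ → ℕ → ℕ → ℤ) (j : ℕ) : ∀ (k l : ℕ) (L : List ℕ),
    ev (2 * j) L (pg o j k l) = Eg o j k l L := by
  induction j with
  | zero => intro k l L; rfl
  | succ j ih =>
    intro k l L
    rw [show 2 * (j + 1) = 2 * j + 1 + 1 by ring]
    simp only [ev, Eg]
    congr 1
    funext b R
    congr 1
    funext c R'
    rw [← ih (k + 1) c R', ← ev_mul]
    congr 1

/-- fast sign for distinct numbers -/
def fs (p q r : ℕ) : ℤ := cond (xor (Nat.blt p q) (xor (Nat.blt q r) (Nat.blt p r))) 1 (-1)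

/-- the cyclic orientation of three numbers -/
def orN (p q r : ℕ) : ℤ :=
  cond (Nat.beq p q || (Nat.beq q r || Nat.beq p r)) 0 (fs p q r)

theorem blt_eq (a b : ℕ) : Nat.blt a b = decide (a < b) := by
  rw [Bool.eq_iff_iff, Nat.blt_eq, decide_eq_true_eq]
theorem beq_eq' (a b : ℕ) : Nat.beq a b = decide (a = b) := by
  rw [Bool.eq_iff_iff, Nat.beq_eq, decide_eq_true_eq]

theorem sg (a b : ℕ) (h : a ≠ b) : Int.sign ((b : ℤ) - a) = if a < b then 1 else -1 := by
  by_cases hab : a < b
  · rw [if_pos hab]; exact Int.sign_eq_one_of_pos (by omega)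
  · rw [if_neg hab]; exact Int.sign_eq_neg_one_of_neg (by omega)

theorem orN_sign (p q r : ℕ) :
    orN p q r = Int.sign ((q : ℤ) - p) * Int.sign ((r : ℤ) - q) * Int.sign ((r : ℤ) - p) := by
  unfold orN fs
  rw [blt_eq, blt_eq, blt_eq, beq_eq', beq_eq', beq_eq']
  by_cases h1 : p = q
  · subst h1; simp
  by_cases h2 : q = r
  · subst h2; simp
  by_cases h3 : p = r
  · subst h3; simp
  rw [sg p q h1, sg q r h2, sg p r h3]
  by_cases c1 : p < q <;> by_cases c2 : q < r <;> by_cases c3 : p < r <;>
    simp [c1, c2, c3, h1, h2, h3]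

theorem orN_anti (p q r : ℕ) : orN p r q = - orN p q r := by
  rw [orN_sign, orN_sign]
  rw [show ((q : ℤ) - r) = -((r : ℤ) - q) by ring, Int.sign_neg]
  ring

/-- two blocks with last element `l` and remaining elements `a, b, c, d` -/
def two (o g : ℕ → ℕ → ℕ → ℤ) (l a b c d : ℕ) : ℤ :=
  o l a b * g b c d - o l a c * g c b d - o l a d * g d c b
  - (o l b a * g a c d - o l b c * g c a d - o l b d * g d c a)
  - (o l c b * g b a d - o l c a * g a b d - o l c d * g d a b)
  - (o l d b * g b c a - o l d c * g c b a - o l d a * g a c b)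

/-- orientation through a table -/
def tab (R : List ℕ) (l b c : ℕ) : ℤ := orN (R.getD l 0) (R.getD b 0) (R.getD c 0)

/-- the last two blocks -/
def E2 (o g : ℕ → ℕ → ℕ → ℤ) (l : ℕ) (L : List ℕ) : ℤ :=
  match L with
  | [a, b, c, d] => 2 * two o g l a b c d
  | _ => 0

theorem E2_eq (o g : ℕ → ℕ → ℕ → ℤ) (hg : ∀ p q r, g p r q = - g p q r) (l : ℕ) (L : List ℕ)
    (hL : L.length = 4) :
    (sumPicks L fun b R => sumPicks R fun c R' => o l b c *
      (sumPicks R' fun b' R1 => sumPicks R1 fun c' _ => g c b' c' * 1)) = E2 o g l L := by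
  match L, hL with
  | [a, b, c, d], _ =>
    have h1 : ∀ c x y, (sumPicks [x, y] fun b' R1 => sumPicks R1 fun c' _ => g c b' c' * 1) =
        2 * g c x y := by
      intro c x y
      have := hg c x y
      simp [sumPicks, List.range_succ]
      linarith
    simp [sumPicks, E2, two, List.range_succ] at h1 ⊢
    simp only [h1]
    ring

/-- the fast evaluation for nine points -/
def fast (o0 o1 o2 g : ℕ → ℕ → ℕ → ℤ) (L : List ℕ) : ℤ :=
  sumPicks L fun x R => sumPicks R fun b R => sumPicks R fun c R => o0 x b c *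
    sumPicks R fun b' R => sumPicks R fun c' R => o1 c b' c' * E2 o2 g c' R

/-- the four orientations -/
def four (o0 o1 o2 g : ℕ → ℕ → ℕ → ℤ) (k : ℕ) : ℕ → ℕ → ℕ → ℤ :=
  match k with
  | 0 => o0
  | 1 => o1
  | 2 => o2
  | _ => g

theorem fast_eq (o0 o1 o2 g : ℕ → ℕ → ℕ → ℤ) (hg : ∀ p q r, g p r q = - g p q r) (L : List ℕ)
    (hL : L.length = 9) :
    (sumPicks L fun x R => Eg (four o0 o1 o2 g) 4 0 x R) = fast o0 o1 o2 g L := by
  unfold fast
  apply sumPicks_congr
  intro x R hR
  simp only [Eg, four]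
  apply sumPicks_congr
  intro b R1 hR1
  apply sumPicks_congr
  intro c R2 hR2
  congr 1
  apply sumPicks_congr
  intro b' R3 hR3
  apply sumPicks_congr
  intro c' R4 hR4
  congr 1
  exact E2_eq o2 g hg c' R4 (by omega)

end Pool.Agent.X148.OrC
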