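import Pool.Agent.X148.OrC1

set_option autoImplicit false

/-!
# The two numerical evaluations
-/

namespace Pool.Agent.X148.OrC

set_option maxRecDepth 100000 in
theorem num_B : fast (tab [0,6,2,5,1,8,4,7,3]) (tab [0,6,4,1,8,3,7,5,2]) (tab [0,6,1,2,4,7,8,3,5])
    (tab [0,1,2,3,4,5,6,7,8]) [0,1,2,3,4,5,6,7,8] = 24192 := by decide +kernel

set_option maxRecDepth 100000 in
theorem num_A : fast (tab [0,1,2,3,4,5,6,7,8]) (tab [0,2,4,6,8,1,3,5,7]) (tab [0,3,6,0,3,6,0,3,6])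
    (tab [0,4,8,3,7,2,6,1,5]) [0,1,2,3,4,5,6,7,8] = 12960 := by decide +kernel

end Pool.Agent.X148.OrC
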