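import Pool.Agent.X148.OrC2

set_option autoImplicit false

/-!
# The alternated product of orientation cocycles
-/

namespace Pool.Agent.X148.OrC

open Equiv Finset

/-- The orientation cocycle of the circle: the sign of the oriented area of the triangle `a, b, c`,
which is `1` if `a, b, c` are distinct and in counterclockwise order, `-1` if they are distinct and
in clockwise order, and `0` if two of them coincide. -/
noncomputable def Or (a b c : Circle) : ℝ :=
  Real.sign ((starRingEnd ℂ ((b : ℂ) - a) * ((c : ℂ) - a)).im)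

/-- The function `Θ_n` on `(2n+1)`-tuples of points of the `n`-torus. -/
noncomputable def Theta (n : ℕ) (θ : Fin (2 * n + 1) → Fin n → Circle) : ℝ :=
  Real.pi ^ n / ((2 * n + 1).factorial : ℝ) * ∑ σ : Perm (Fin (2 * n + 1)),
    (((Perm.sign σ : ℤˣ) : ℤ) : ℝ) * ∏ i : Fin n,
      Or (θ (σ ⟨2 * i, by omega⟩) i) (θ (σ ⟨2 * i + 1, by omega⟩) i) (θ (σ ⟨2 * i + 2, by omega⟩) i)

/-- `ζ = exp (2 π i / (2n+1))`. -/
noncomputable def zeta (n : ℕ) : Circle := Circle.exp (2 * Real.pi / (2 * n + 1))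

/-- The configuration `θ*`: the `k`-th coordinate of `θ*_j` is `ζ ^ (k j)`, `k = 1, …, n`. -/
noncomputable def thetaStar (n : ℕ) : Fin (2 * n + 1) → Fin n → Circle :=
  fun j k => zeta n ^ (((k : ℕ) + 1) * (j : ℕ))

theorem abs_Or_le (a b c : Circle) : |Or a b c| ≤ 1 := by
  unfold Or
  rcases Real.sign_apply_eq ((starRingEnd ℂ ((b : ℂ) - a) * ((c : ℂ) - a)).im) with h | h | h <;>
    rw [h] <;> norm_num

theorem abs_Theta_le (n : ℕ) (θ : Fin (2 * n + 1) → Fin n → Circle) :
    |Theta n θ| ≤ Real.pi ^ n := by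
  have hf : (0 : ℝ) < ((2 * n + 1).factorial : ℝ) := by exact_mod_cast Nat.factorial_pos _
  have hpi : 0 < Real.pi ^ n := pow_pos Real.pi_pos n
  unfold Theta
  rw [abs_mul, abs_of_pos (div_pos hpi hf)]
  have h1 : |∑ σ : Perm (Fin (2 * n + 1)),
      (((Perm.sign σ : ℤˣ) : ℤ) : ℝ) * ∏ i : Fin n,
      Or (θ (σ ⟨2 * i, by omega⟩) i) (θ (σ ⟨2 * i + 1, by omega⟩) i)
        (θ (σ ⟨2 * i + 2, by omega⟩) i)| ≤ ((2 * n + 1).factorial : ℝ) := by
    refine (Finset.abs_sum_le_sum_abs _ _).trans ?_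
    calc _ ≤ ∑ σ : Perm (Fin (2 * n + 1)), (1 : ℝ) := by
          apply Finset.sum_le_sum
          intro σ _
          rw [abs_mul]
          have h2 : |(((Perm.sign σ : ℤˣ) : ℤ) : ℝ)| = 1 := by
            rcases Int.units_eq_one_or (Perm.sign σ) with h | h <;> rw [h] <;> simp
          rw [h2, one_mul, Finset.abs_prod]
          exact Finset.prod_le_one (fun _ _ => abs_nonneg _) fun _ _ => abs_Or_le _ _ _
      _ = _ := by
          rw [Finset.sum_const, Finset.card_univ, Fintype.card_perm, Fintype.card_fin]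
          simp
  calc Real.pi ^ n / ((2 * n + 1).factorial : ℝ) * _
      ≤ Real.pi ^ n / ((2 * n + 1).factorial : ℝ) * ((2 * n + 1).factorial : ℝ) :=
        mul_le_mul_of_nonneg_left h1 (div_pos hpi hf).le
    _ = Real.pi ^ n := by field_simp

/-! ### Roots of unity -/

theorem im_formula (α β γ : ℝ) :
    (starRingEnd ℂ (((Circle.exp β : Circle) : ℂ) - (Circle.exp α : Circle)) *
      (((Circle.exp γ : Circle) : ℂ) - (Circle.exp α : Circle))).im =
    4 * Real.sin ((β - α) / 2) * Real.sin ((γ - β) / 2) * Real.sin ((γ - α) / 2) := by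
  rw [Circle.coe_exp, Circle.coe_exp, Circle.coe_exp, Complex.exp_mul_I, Complex.exp_mul_I,
    Complex.exp_mul_I]
  simp only [← Complex.ofReal_cos, ← Complex.ofReal_sin, map_sub, map_add, map_mul,
    Complex.conj_ofReal, Complex.conj_I, Complex.mul_im, Complex.sub_re, Complex.sub_im,
    Complex.add_re, Complex.add_im, Complex.ofReal_re, Complex.ofReal_im, Complex.mul_re,
    Complex.I_re, Complex.I_im, Complex.neg_re, Complex.neg_im]
  have key : Real.sin (γ - β) + Real.sin (β - α) - Real.sin (γ - α) =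
      4 * Real.sin ((β - α) / 2) * Real.sin ((γ - β) / 2) * Real.sin ((γ - α) / 2) := by
    set x := (β - α) / 2 with hx
    set y := (γ - β) / 2 with hy
    have hxy : (γ - α) / 2 = x + y := by rw [hx, hy]; ring
    have e1 : γ - β = 2 * y := by rw [hy]; ring
    have e2 : β - α = 2 * x := by rw [hx]; ring
    have e3 : γ - α = 2 * x + 2 * y := by rw [hx, hy]; ring
    rw [hxy, e1, e2, e3]
    clear_value x y
    rw [Real.sin_add (2 * x), Real.sin_add x y, Real.sin_two_mul, Real.sin_two_mul,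
      Real.cos_two_mul, Real.cos_two_mul]
    have h6 := Real.sin_sq_add_cos_sq x
    have h7 := Real.sin_sq_add_cos_sq y
    have e6 : Real.cos x ^ 2 = 1 - Real.sin x ^ 2 := by linarith
    have e7 : Real.cos y ^ 2 = 1 - Real.sin y ^ 2 := by linarith
    rw [e6, e7]
    ring
  rw [← key, Real.sin_sub, Real.sin_sub, Real.sin_sub]
  have h5 := Real.sin_sq_add_cos_sq α
  linear_combination h5 * 0

/-- The orientation of three points `e ^ {2 π i p / N}`, `0 ≤ p < N`. -/
theorem Or_exp (N : ℕ) (hN : 0 < N) (p q r : ℕ) (hp : p < N) (hq : q < N) (hr : r < N) :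
    Or (Circle.exp (2 * Real.pi / N * p)) (Circle.exp (2 * Real.pi / N * q))
      (Circle.exp (2 * Real.pi / N * r)) = (orN p q r : ℝ) := by
  have hN' : (0 : ℝ) < N := by exact_mod_cast hN
  have hs : ∀ a b : ℕ, a < N → b < N →
      Real.sign (Real.sin ((2 * Real.pi / N * b - 2 * Real.pi / N * a) / 2)) =
        ((Int.sign ((b : ℤ) - a) : ℤ) : ℝ) := by
    intro a b ha hb
    have e : (2 * Real.pi / N * b - 2 * Real.pi / N * a) / 2 = Real.pi * (((b : ℝ) - a) / N) := by
      field_simp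
    rw [e]
    rcases lt_trichotomy a b with h | h | h
    · have h1 : (0 : ℝ) < (b : ℝ) - a := by
        have : (a : ℝ) < b := by exact_mod_cast h
        linarith
      have h2 : (b : ℝ) - a < N := by
        have h3 : (b : ℝ) < N := by exact_mod_cast hb
        have h4 : (0 : ℝ) ≤ a := by positivity
        linarith
      have h5 : 0 < Real.sin (Real.pi * (((b : ℝ) - a) / N)) := by
        apply Real.sin_pos_of_pos_of_lt_pi
        · exact mul_pos Real.pi_pos (div_pos h1 hN')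
        · have : ((b : ℝ) - a) / N < 1 := by rw [div_lt_one hN']; exact h2
          nlinarith [Real.pi_pos]
      rw [Real.sign_of_pos h5, Int.sign_eq_one_of_pos (by omega)]
      simp
    · subst h
      simp
    · have h1 : (0 : ℝ) < (a : ℝ) - b := by
        have : (b : ℝ) < a := by exact_mod_cast h
        linarith
      have h2 : (a : ℝ) - b < N := by
        have h3 : (a : ℝ) < N := by exact_mod_cast ha
        have h4 : (0 : ℝ) ≤ b := by positivity
        linarith
      have h5 : Real.sin (Real.pi * (((b : ℝ) - a) / N)) < 0 := by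
        rw [show Real.pi * (((b : ℝ) - a) / N) = -(Real.pi * (((a : ℝ) - b) / N)) by ring,
          Real.sin_neg, neg_lt_zero]
        apply Real.sin_pos_of_pos_of_lt_pi
        · exact mul_pos Real.pi_pos (div_pos h1 hN')
        · have : ((a : ℝ) - b) / N < 1 := by rw [div_lt_one hN']; exact h2
          nlinarith [Real.pi_pos]
      rw [Real.sign_of_neg h5, Int.sign_eq_neg_one_of_neg (by omega)]
      simp
  have hm : ∀ a b : ℝ, Real.sign (a * b) = Real.sign a * Real.sign b := by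
    intro a b
    rcases lt_trichotomy a 0 with h | h | h <;> rcases lt_trichotomy b 0 with h' | h' | h'
    · rw [Real.sign_of_neg h, Real.sign_of_neg h', Real.sign_of_pos (mul_pos_of_neg_of_neg h h')]
      norm_num
    · simp [h']
    · rw [Real.sign_of_neg h, Real.sign_of_pos h', Real.sign_of_neg (mul_neg_of_neg_of_pos h h')]
      norm_num
    · simp [h]
    · simp [h]
    · simp [h]
    · rw [Real.sign_of_pos h, Real.sign_of_neg h', Real.sign_of_neg (mul_neg_of_pos_of_neg h h')]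
      norm_num
    · simp [h']
    · rw [Real.sign_of_pos h, Real.sign_of_pos h', Real.sign_of_pos (mul_pos h h')]
      norm_num
  unfold Or
  rw [im_formula, hm, hm, hm, hs p q hp hq, hs q r hq hr, hs p r hp hr, orN_sign,
    Real.sign_of_pos (by norm_num : (0 : ℝ) < 4)]
  push_cast
  ring

/-- A power of `ζ` for `n = 4` through the exponent modulo nine. -/
theorem zeta_pow (m : ℕ) : zeta 4 ^ m = Circle.exp (2 * Real.pi / (9 : ℕ) * ((m % 9 : ℕ) : ℝ)) := by
  have h9 : zeta 4 ^ 9 = 1 := by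
    unfold zeta
    rw [← Circle.exp_nsmul]
    have : (9 : ℕ) • (2 * Real.pi / (2 * ((4 : ℕ) : ℝ) + 1)) = 2 * Real.pi := by
      rw [nsmul_eq_mul]; push_cast; ring
    rw [this, Circle.exp_two_pi]
  have h1 : zeta 4 ^ m = zeta 4 ^ (m % 9) := by
    conv_lhs => rw [← Nat.mod_add_div m 9]
    rw [pow_add, pow_mul, h9, one_pow, mul_one]
  rw [h1]
  unfold zeta
  rw [← Circle.exp_nsmul, nsmul_eq_mul]
  congr 1
  push_cast
  ring

/-- Evaluation of `Θ_4` at configurations of powers of `ζ`. -/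
theorem Theta_eval (θ : Fin (2 * 4 + 1) → Fin 4 → Circle) (R0 R1 R2 R3 : List ℕ)
    (h0 : ∀ j : Fin 9, R0.getD j 0 < 9 ∧ θ j 0 = Circle.exp (2 * Real.pi / (9 : ℕ) * (R0.getD j 0 : ℕ)))
    (h1 : ∀ j : Fin 9, R1.getD j 0 < 9 ∧ θ j 1 = Circle.exp (2 * Real.pi / (9 : ℕ) * (R1.getD j 0 : ℕ)))
    (h2 : ∀ j : Fin 9, R2.getD j 0 < 9 ∧ θ j 2 = Circle.exp (2 * Real.pi / (9 : ℕ) * (R2.getD j 0 : ℕ)))
    (h3 : ∀ j : Fin 9, R3.getD j 0 < 9 ∧ θ j 3 = Circle.exp (2 * Real.pi / (9 : ℕ) * (R3.getD j 0 : ℕ))) :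
    Theta 4 θ = Real.pi ^ 4 / 362880 *
      ((fast (tab R0) (tab R1) (tab R2) (tab R3) [0,1,2,3,4,5,6,7,8] : ℤ) : ℝ) := by
  have hg : ∀ p q r, (tab R3) p r q = - (tab R3) p q r := fun p q r => orN_anti _ _ _
  rw [← fast_eq (tab R0) (tab R1) (tab R2) (tab R3) hg _ rfl]
  have e1 : (sumPicks [0,1,2,3,4,5,6,7,8] fun x R =>
      Eg (four (tab R0) (tab R1) (tab R2) (tab R3)) 4 0 x R) =
      ev 9 (List.ofFn fun i : Fin 9 => (i : ℕ))
        (fun w => match w with
          | [] => 1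
          | x :: w' => pg (four (tab R0) (tab R1) (tab R2) (tab R3)) 4 0 x w') := by
    have e2 : (List.ofFn fun i : Fin 9 => (i : ℕ)) = [0,1,2,3,4,5,6,7,8] := by
      simp [List.ofFn_succ, Fin.succ]
    rw [e2, show (9 : ℕ) = 2 * 4 + 1 from rfl, ev]
    congr 1
    funext x R
    rw [← ev_pg]
  rw [e1, ← sum_perm_eq_ev]
  unfold Theta
  have hf : (((2 * 4 + 1).factorial : ℕ) : ℝ) = 362880 := by
    norm_num [Nat.factorial]
  rw [hf]
  congr 1
  push_cast
  apply Finset.sum_congr rfl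
  intro σ _
  congr 1
  have hO : ∀ (R : List ℕ) (a b c : Circle) (p q r : ℕ),
      (R.getD p 0 < 9 ∧ a = Circle.exp (2 * Real.pi / (9 : ℕ) * (R.getD p 0 : ℕ))) →
      (R.getD q 0 < 9 ∧ b = Circle.exp (2 * Real.pi / (9 : ℕ) * (R.getD q 0 : ℕ))) →
      (R.getD r 0 < 9 ∧ c = Circle.exp (2 * Real.pi / (9 : ℕ) * (R.getD r 0 : ℕ))) →
      Or a b c = ((tab R p q r : ℤ) : ℝ) := by
    rintro R a b c p q r ⟨ha, rfl⟩ ⟨hb, rfl⟩ ⟨hc, rfl⟩
    exact Or_exp 9 (by norm_num) _ _ _ ha hb hc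
  rw [Fin.prod_univ_four]
  rw [hO R0 _ _ _ _ _ _ (h0 _) (h0 _) (h0 _), hO R1 _ _ _ _ _ _ (h1 _) (h1 _) (h1 _),
    hO R2 _ _ _ _ _ _ (h2 _) (h2 _) (h2 _), hO R3 _ _ _ _ _ _ (h3 _) (h3 _) (h3 _)]
  simp [List.ofFn_succ, pg, four, mul_assoc]

end Pool.Agent.X148.OrC
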