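import Mathlib

set_option autoImplicit false

open Set Filter Topology

namespace Pool.Agent.X148.QC

/-! ### The scales -/

/-- tube radii -/
noncomputable def r : ℕ → ℝ
  | 0 => 1
  | n + 1 => r n * (1 / 2) ^ (n + 20) * (1 / 2) ^ (n + 20)

/-- gaps -/
noncomputable def d (n : ℕ) : ℝ := r n * (1 / 2) ^ (n + 20)

theorem r_pos (n : ℕ) : 0 < r n := by
  induction n with
  | zero => simp [r]
  | succ n ih => rw [r]; positivity

theorem d_pos (n : ℕ) : 0 < d n := by
  have := r_pos n
  unfold d; positivity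

theorem r_succ (n : ℕ) : r (n + 1) = d n * (1 / 2) ^ (n + 20) := rfl

theorem pow20 (n : ℕ) : (1 / 2 : ℝ) ^ (n + 20) ≤ 1 / 1000000 := by
  calc (1 / 2 : ℝ) ^ (n + 20) ≤ (1 / 2) ^ 20 :=
        pow_le_pow_of_le_one (by norm_num) (by norm_num) (by omega)
    _ ≤ 1 / 1000000 := by norm_num

theorem d_le (n : ℕ) : d n ≤ r n / 1000000 := by
  have := r_pos n
  have h := pow20 n
  unfold d
  calc r n * (1 / 2) ^ (n + 20) ≤ r n * (1 / 1000000) := by gcongr
    _ = r n / 1000000 := by ring

theorem r_succ_le (n : ℕ) : r (n + 1) ≤ d n / 1000000 := by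
  have := d_pos n
  have h := pow20 n
  rw [r_succ]
  calc d n * (1 / 2) ^ (n + 20) ≤ d n * (1 / 1000000) := by gcongr
    _ = d n / 1000000 := by ring

theorem r_succ_le_r (n : ℕ) : r (n + 1) ≤ r n / 1000000 := by
  have h1 := r_succ_le n
  have h2 := d_le n
  have h3 := d_pos n
  have h4 := r_pos n
  linarith

theorem d_succ_le (n : ℕ) : d (n + 1) ≤ d n / 1000000 := by
  have h1 := r_succ_le n
  have h2 := d_le (n + 1)
  have h3 := r_pos (n + 1)
  linarith

theorem r_antitone : Antitone r := antitone_nat_of_succ_le fun n => by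
  have h1 := r_succ_le_r n
  have h2 := r_pos n
  linarith

theorem d_antitone : Antitone d := antitone_nat_of_succ_le fun n => by
  have h1 := d_succ_le n
  have h2 := d_pos n
  linarith

theorem r_add_le (n l : ℕ) : r (n + l) ≤ r n * (1 / 4) ^ l := by
  induction l with
  | zero => simp
  | succ l ih =>
    have h1 := r_succ_le_r (n + l)
    have h2 := r_pos (n + l)
    rw [← add_assoc, pow_succ]
    linarith

theorem r_tendsto : Tendsto r atTop (𝓝 0) := by
  have h : ∀ n, r n ≤ (1 / 4) ^ n := by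
    intro n
    have := r_add_le 0 n
    simpa [r] using this
  exact squeeze_zero (fun n => (r_pos n).le) h
    (tendsto_pow_atTop_nhds_zero_of_lt_one (by norm_num) (by norm_num))

/-! ### The cutoff and the basic bump -/

/-- the cutoff function -/
noncomputable def chi (t : ℝ) : ℝ := max 0 (min 1 (2 - 2 * |t|))

theorem chi_nonneg (t : ℝ) : 0 ≤ chi t := le_max_left _ _

theorem chi_le_one (t : ℝ) : chi t ≤ 1 := max_le zero_le_one (min_le_left _ _)

theorem chi_one {t : ℝ} (h : |t| ≤ 1 / 2) : chi t = 1 := by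
  unfold chi
  rw [min_eq_left (by linarith), max_eq_right zero_le_one]

theorem chi_zero {t : ℝ} (h : 1 ≤ |t|) : chi t = 0 := by
  unfold chi
  apply max_eq_left
  exact (min_le_right _ _).trans (by linarith)

theorem chi_lip (s t : ℝ) : |chi s - chi t| ≤ 2 * |s - t| := by
  unfold chi
  have h1 : |max 0 (min 1 (2 - 2 * |s|)) - max 0 (min 1 (2 - 2 * |t|))| ≤
      |min 1 (2 - 2 * |s|) - min 1 (2 - 2 * |t|)| := by
    have := abs_max_sub_max_le_max 0 (min 1 (2 - 2 * |s|)) 0 (min 1 (2 - 2 * |t|))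
    simpa using this
  have h2 : |min 1 (2 - 2 * |s|) - min 1 (2 - 2 * |t|)| ≤ |(2 - 2 * |s|) - (2 - 2 * |t|)| := by
    have := abs_min_sub_min_le_max 1 (2 - 2 * |s|) 1 (2 - 2 * |t|)
    simpa using this
  have h3 : |(2 - 2 * |s|) - (2 - 2 * |t|)| = 2 * |(|s| - |t|)| := by
    have : (2 - 2 * |s|) - (2 - 2 * |t|) = -(2 * (|s| - |t|)) := by ring
    rw [this, abs_neg, abs_mul, abs_of_pos (by norm_num : (0 : ℝ) < 2)]
  have h4 := abs_abs_sub_abs_le s t
  linarith

theorem norm_exp_le {z : ℂ} (h : |z.re| ≤ 1) : ‖Complex.exp z‖ ≤ 3 := by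
  rw [Complex.norm_exp]
  have h1 : Real.exp z.re ≤ Real.exp 1 := Real.exp_le_exp.2 (le_of_abs_le h)
  have h2 := Real.exp_one_lt_d9
  linarith

theorem norm_cosh_le {z : ℂ} (h : |z.re| ≤ 1) : ‖Complex.cosh z‖ ≤ 3 := by
  unfold Complex.cosh
  rw [norm_div, Complex.norm_ofNat, div_le_iff₀ (by norm_num)]
  have h1 := norm_exp_le h
  have h2 := norm_exp_le (z := -z) (by simpa using h)
  have h3 := norm_add_le (Complex.exp z) (Complex.exp (-z))
  linarith

theorem norm_sinh_le {z : ℂ} (h : |z.re| ≤ 1) : ‖Complex.sinh z‖ ≤ 3 := by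
  unfold Complex.sinh
  rw [norm_div, Complex.norm_ofNat, div_le_iff₀ (by norm_num)]
  have h1 := norm_exp_le h
  have h2 := norm_exp_le (z := -z) (by simpa using h)
  have h3 := norm_sub_le (Complex.exp z) (Complex.exp (-z))
  linarith

theorem cosh_sub_one {h : ℂ} (hh : ‖h‖ ≤ 1) : ‖Complex.cosh h - 1‖ ≤ ‖h‖ ^ 2 := by
  have h1 := Complex.norm_exp_sub_one_sub_id_le hh
  have h2 := Complex.norm_exp_sub_one_sub_id_le (x := -h) (by simpa using hh)
  rw [norm_neg] at h2
  have e : Complex.cosh h - 1 = ((Complex.exp h - 1 - h) + (Complex.exp (-h) - 1 - -h)) / 2 := by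
    unfold Complex.cosh; ring
  rw [e, norm_div, Complex.norm_ofNat, div_le_iff₀ (by norm_num)]
  have h3 := norm_add_le (Complex.exp h - 1 - h) (Complex.exp (-h) - 1 - -h)
  linarith

theorem sinh_sub_self {h : ℂ} (hh : ‖h‖ ≤ 1) : ‖Complex.sinh h - h‖ ≤ ‖h‖ ^ 2 := by
  have h1 := Complex.norm_exp_sub_one_sub_id_le hh
  have h2 := Complex.norm_exp_sub_one_sub_id_le (x := -h) (by simpa using hh)
  rw [norm_neg] at h2
  have e : Complex.sinh h - h = ((Complex.exp h - 1 - h) - (Complex.exp (-h) - 1 - -h)) / 2 := by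
    unfold Complex.sinh; ring
  rw [e, norm_div, Complex.norm_ofNat, div_le_iff₀ (by norm_num)]
  have h3 := norm_sub_le (Complex.exp h - 1 - h) (Complex.exp (-h) - 1 - -h)
  linarith

theorem cosh_taylor {a h : ℂ} (ha : |a.re| ≤ 1) (hh : ‖h‖ ≤ 1) :
    ‖Complex.cosh (a + h) - Complex.cosh a - Complex.sinh a * h‖ ≤ 6 * ‖h‖ ^ 2 := by
  have e : Complex.cosh (a + h) - Complex.cosh a - Complex.sinh a * h =
      Complex.cosh a * (Complex.cosh h - 1) + Complex.sinh a * (Complex.sinh h - h) := by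
    rw [Complex.cosh_add]; ring
  rw [e]
  refine (norm_add_le _ _).trans ?_
  rw [norm_mul, norm_mul]
  have h1 := norm_cosh_le ha
  have h2 := norm_sinh_le ha
  have h3 := cosh_sub_one hh
  have h4 := sinh_sub_self hh
  have h5 : ‖Complex.cosh a‖ * ‖Complex.cosh h - 1‖ ≤ 3 * ‖h‖ ^ 2 := by gcongr
  have h6 : ‖Complex.sinh a‖ * ‖Complex.sinh h - h‖ ≤ 3 * ‖h‖ ^ 2 := by gcongr
  linarith

theorem cosh_lip {z w : ℂ} (hz : |z.re| ≤ 1) (hw : |w.re| ≤ 1) :
    ‖Complex.cosh z - Complex.cosh w‖ ≤ 3 * ‖z - w‖ := by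
  have hconv : Convex ℝ {z : ℂ | |z.re| ≤ 1} := by
    have : {z : ℂ | |z.re| ≤ 1} = Complex.reLm ⁻¹' (Icc (-1) 1) := by
      ext z
      simp [abs_le]
    rw [this]
    exact (convex_Icc _ _).linear_preimage _
  exact hconv.norm_image_sub_le_of_norm_deriv_le (f := Complex.cosh) (C := 3)
    (fun x _ => Complex.differentiable_cosh x)
    (fun x hx => by rw [Complex.deriv_cosh]; exact norm_sinh_le hx) hw hz

/-- the basic bump -/
noncomputable def Psi (w : ℂ) : ℂ := chi w.re * Complex.cosh w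

theorem Psi_zero {w : ℂ} (h : 1 ≤ |w.re|) : Psi w = 0 := by
  simp [Psi, chi_zero h]

theorem Psi_inner {w : ℂ} (h : |w.re| ≤ 1 / 2) : Psi w = Complex.cosh w := by
  simp [Psi, chi_one h]

theorem Psi_norm (w : ℂ) : ‖Psi w‖ ≤ 3 := by
  rcases le_total |w.re| 1 with h | h
  · unfold Psi
    rw [norm_mul, Complex.norm_real, Real.norm_of_nonneg (chi_nonneg _)]
    have h1 := chi_le_one w.re
    have h2 := norm_cosh_le h
    have h3 := chi_nonneg w.re
    nlinarith [norm_nonneg (Complex.cosh w)]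
  · rw [Psi_zero h, norm_zero]; norm_num

theorem Psi_lip_aux {w w' : ℂ} (h : |w.re| ≤ 1) (h' : 1 ≤ |w'.re|) :
    ‖Psi w‖ ≤ 9 * ‖w - w'‖ := by
  unfold Psi
  rw [norm_mul, Complex.norm_real, Real.norm_of_nonneg (chi_nonneg _)]
  have h1 : chi w.re ≤ 2 * |w.re - w'.re| := by
    have := chi_lip w.re w'.re
    rw [chi_zero h', sub_zero, abs_of_nonneg (chi_nonneg _)] at this
    exact this
  have h2 : |w.re - w'.re| ≤ ‖w - w'‖ := by
    rw [← Complex.sub_re]; exact Complex.abs_re_le_norm _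
  have h3 := norm_cosh_le h
  have h4 := chi_nonneg w.re
  calc chi w.re * ‖Complex.cosh w‖ ≤ (2 * ‖w - w'‖) * 3 := by
        gcongr
        linarith
    _ ≤ 9 * ‖w - w'‖ := by nlinarith [norm_nonneg (w - w')]

theorem Psi_lip (w w' : ℂ) : ‖Psi w - Psi w'‖ ≤ 9 * ‖w - w'‖ := by
  rcases le_total |w.re| 1 with h | h
  · rcases le_total |w'.re| 1 with h' | h'
    · have e : Psi w - Psi w' = ((chi w.re - chi w'.re : ℝ) : ℂ) * Complex.cosh w +
          (chi w'.re : ℂ) * (Complex.cosh w - Complex.cosh w') := by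
        unfold Psi; push_cast; ring
      rw [e]
      refine (norm_add_le _ _).trans ?_
      rw [norm_mul, norm_mul, Complex.norm_real, Complex.norm_real,
        Real.norm_of_nonneg (chi_nonneg w'.re), Real.norm_eq_abs]
      have h1 := chi_lip w.re w'.re
      have h2 : |w.re - w'.re| ≤ ‖w - w'‖ := by
        rw [← Complex.sub_re]; exact Complex.abs_re_le_norm _
      have h3 := norm_cosh_le h
      have h4 := cosh_lip h h'
      have h5 := chi_le_one w'.re
      have h6 := chi_nonneg w'.re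
      have h7 : |chi w.re - chi w'.re| * ‖Complex.cosh w‖ ≤ (2 * ‖w - w'‖) * 3 := by
        gcongr
        linarith
      have h8 : chi w'.re * ‖Complex.cosh w - Complex.cosh w'‖ ≤ 1 * (3 * ‖w - w'‖) := by
        gcongr
      nlinarith [norm_nonneg (w - w')]
    · rw [Psi_zero h', sub_zero]
      exact Psi_lip_aux h h'
  · rcases le_total |w'.re| 1 with h' | h'
    · rw [Psi_zero h, zero_sub, norm_neg, norm_sub_rev]
      exact Psi_lip_aux h' h
    · rw [Psi_zero h, Psi_zero h', sub_zero, norm_zero]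
      positivity

/-! ### The finite sets `E n` -/

/-- `E n` is the set of the sums `∑_{k<n} ε_k d_k` with `ε_k ∈ {0,1}` -/
noncomputable def E : ℕ → Finset ℝ
  | 0 => {0}
  | n + 1 => E n ∪ (E n).image (· + d n)

theorem mem_E_succ {n : ℕ} {a : ℝ} : a ∈ E (n + 1) ↔ a ∈ E n ∨ ∃ b ∈ E n, b + d n = a := by
  rw [E, Finset.mem_union, Finset.mem_image]

/-- every point of `E (n+1)` is within `d n` of `E n` -/
theorem exists_parent {n : ℕ} {a : ℝ} (h : a ∈ E (n + 1)) : ∃ b ∈ E n, |a - b| ≤ d n := by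
  rcases mem_E_succ.1 h with h | ⟨b, hb, rfl⟩
  · exact ⟨a, h, by simp [(d_pos n).le]⟩
  · exact ⟨b, hb, by simp [abs_of_pos (d_pos n)]⟩

theorem E_gap (n : ℕ) : ∀ a ∈ E (n + 1), ∀ b ∈ E (n + 1), a ≠ b → d n ≤ |a - b| := by
  induction n with
  | zero =>
    intro a ha b hb hab
    have h0 : ∀ x ∈ E 1, x = 0 ∨ x = d 0 := by
      intro x hx
      rcases mem_E_succ.1 hx with h | ⟨y, hy, rfl⟩
      · left; simpa [E] using h
      · right
        have : y = 0 := by simpa [E] using hy
        rw [this, zero_add]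
    have hd := d_pos 0
    rcases h0 a ha with rfl | rfl <;> rcases h0 b hb with rfl | rfl
    · exact absurd rfl hab
    · rw [zero_sub, abs_neg, abs_of_pos hd]
    · rw [sub_zero, abs_of_pos hd]
    · exact absurd rfl hab
  | succ n ih =>
    have key : ∀ a ∈ E (n + 2), ∃ a' ∈ E (n + 1), a = a' ∨ a = a' + d (n + 1) := by
      intro a ha
      rcases mem_E_succ.1 ha with h | ⟨y, hy, rfl⟩
      · exact ⟨a, h, Or.inl rfl⟩
      · exact ⟨y, hy, Or.inr rfl⟩
    intro a ha b hb hab
    obtain ⟨a', ha', hae⟩ := key a ha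
    obtain ⟨b', hb', hbe⟩ := key b hb
    have hd := d_pos (n + 1)
    have hds := d_succ_le n
    have hdn := d_pos n
    by_cases h : a' = b'
    · subst h
      rcases hae with rfl | rfl <;> rcases hbe with rfl | rfl
      · exact absurd rfl hab
      · rw [sub_add_cancel_left, abs_neg, abs_of_pos hd]
      · rw [add_sub_cancel_left, abs_of_pos hd]
      · exact absurd rfl hab
    · have h1 := ih a' ha' b' hb' h
      have h2 : |a' - b'| ≤ |a - b| + d (n + 1) := by
        have h3 : |(a' - b') - (a - b)| ≤ d (n + 1) := by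
          rcases hae with rfl | rfl <;> rcases hbe with rfl | rfl
          · simp [hd.le]
          · have : a - b' - (a - (b' + d (n + 1))) = d (n + 1) := by ring
            rw [this, abs_of_pos hd]
          · have : a' - b - (a' + d (n + 1) - b) = -d (n + 1) := by ring
            rw [this, abs_neg, abs_of_pos hd]
          · have : a' - b' - (a' + d (n + 1) - (b' + d (n + 1))) = 0 := by ring
            rw [this, abs_zero]; exact hd.le
        have h4 := abs_sub_abs_le_abs_sub (a' - b') (a - b)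
        linarith
      linarith

theorem E_sep (n : ℕ) : ∀ a ∈ E n, ∀ b ∈ E n, a ≠ b → 2 * r n ≤ |a - b| := by
  cases n with
  | zero =>
    intro a ha b hb hab
    simp only [E, Finset.mem_singleton] at ha hb
    exact absurd (ha.trans hb.symm) hab
  | succ n =>
    intro a ha b hb hab
    have h1 := E_gap n a ha b hb hab
    have h2 := r_succ_le n
    have h3 := d_pos n
    linarith

/-! ### The perturbations -/

/-- the size of the perturbations -/
noncomputable def c : ℝ := 1 / 2000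

/-- the `n`-th displacement -/
noncomputable def u (n : ℕ) (z : ℂ) : ℂ := ∑ a ∈ E n, ((c * r n : ℝ) : ℂ) * Psi ((z - a) / (r n : ℂ))

/-- the `n`-th map -/
noncomputable def g (n : ℕ) (z : ℂ) : ℂ := z + u n z

theorem re_div (n : ℕ) (z : ℂ) (a : ℝ) : ((z - a) / (r n : ℂ)).re = (z.re - a) / r n := by
  rw [Complex.div_ofReal_re, Complex.sub_re, Complex.ofReal_re]

theorem abs_re_div (n : ℕ) (z : ℂ) (a : ℝ) :
    |((z - a) / (r n : ℂ)).re| = |z.re - a| / r n := by
  rw [re_div, abs_div, abs_of_pos (r_pos n)]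

theorem Psi_out {n : ℕ} {z : ℂ} {a : ℝ} (h : r n ≤ |z.re - a|) :
    Psi ((z - a) / (r n : ℂ)) = 0 := by
  apply Psi_zero
  rw [abs_re_div, one_le_div (r_pos n)]
  exact h

theorem u_single {n : ℕ} {z : ℂ} {a : ℝ} (ha : a ∈ E n) (h : |z.re - a| ≤ r n) :
    u n z = ((c * r n : ℝ) : ℂ) * Psi ((z - a) / (r n : ℂ)) := by
  unfold u
  rw [Finset.sum_eq_single a]
  · intro b hb hba
    rw [Psi_out, mul_zero]
    have h1 := E_sep n b hb a ha hba
    have h2 : |b - a| ≤ |z.re - a| + |z.re - b| := by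
      have : b - a = (z.re - a) - (z.re - b) := by ring
      rw [this]; exact abs_sub _ _
    linarith
  · intro h; exact absurd ha h

theorem u_zero {n : ℕ} {z : ℂ} (h : ∀ a ∈ E n, r n ≤ |z.re - a|) : u n z = 0 := by
  unfold u
  apply Finset.sum_eq_zero
  intro a ha
  rw [Psi_out (h a ha), mul_zero]

theorem c_pos : 0 < c := by norm_num [c]

theorem u_norm (n : ℕ) (z : ℂ) : ‖u n z‖ ≤ 3 * c * r n := by
  have hr := r_pos n
  have hc := c_pos
  by_cases h : ∃ a ∈ E n, |z.re - a| ≤ r n
  · obtain ⟨a, ha, haz⟩ := h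
    rw [u_single ha haz, norm_mul, Complex.norm_real, Real.norm_of_nonneg (by positivity)]
    have := Psi_norm ((z - a) / (r n : ℂ))
    calc c * r n * ‖Psi ((z - a) / (r n : ℂ))‖ ≤ c * r n * 3 := by gcongr
      _ = 3 * c * r n := by ring
  · push Not at h
    rw [u_zero (fun a ha => (h a ha).le), norm_zero]
    positivity

theorem term_lip (n : ℕ) (a : ℝ) (z w : ℂ) :
    ‖((c * r n : ℝ) : ℂ) * Psi ((z - a) / (r n : ℂ)) - ((c * r n : ℝ) : ℂ) *
      Psi ((w - a) / (r n : ℂ))‖ ≤ 9 * c * ‖z - w‖ := by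
  have hr := r_pos n
  have hc := c_pos
  rw [← mul_sub, norm_mul, Complex.norm_real, Real.norm_of_nonneg (by positivity)]
  have h1 := Psi_lip ((z - a) / (r n : ℂ)) ((w - a) / (r n : ℂ))
  have h2 : ‖(z - a) / (r n : ℂ) - (w - a) / (r n : ℂ)‖ = ‖z - w‖ / r n := by
    rw [← sub_div, sub_sub_sub_cancel_right, norm_div, Complex.norm_real,
      Real.norm_of_nonneg hr.le]
  rw [h2] at h1
  calc c * r n * ‖Psi ((z - a) / (r n : ℂ)) - Psi ((w - a) / (r n : ℂ))‖
      ≤ c * r n * (9 * (‖z - w‖ / r n)) := by gcongr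
    _ = 9 * c * ‖z - w‖ := by field_simp

theorem u_lip (n : ℕ) (z w : ℂ) : ‖u n z - u n w‖ ≤ 1 / 100 * ‖z - w‖ := by
  have hc : c = 1 / 2000 := rfl
  have h0 := norm_nonneg (z - w)
  by_cases hz : ∃ a ∈ E n, |z.re - a| ≤ r n
  · obtain ⟨a, ha, haz⟩ := hz
    by_cases hw : ∃ b ∈ E n, |w.re - b| ≤ r n
    · obtain ⟨b, hb, hbw⟩ := hw
      rw [u_single ha haz, u_single hb hbw]
      by_cases hab : a = b
      · subst hab
        refine (term_lip n a z w).trans ?_
        rw [hc]; linarith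
      · have hsep := E_sep n a ha b hb hab
        have h1 : Psi ((w - a) / (r n : ℂ)) = 0 := by
          apply Psi_out
          have : |a - b| ≤ |w.re - a| + |w.re - b| := by
            have e : a - b = (w.re - b) - (w.re - a) := by ring
            rw [e]
            refine (abs_sub _ _).trans ?_
            linarith
          linarith
        have h2 : Psi ((z - b) / (r n : ℂ)) = 0 := by
          apply Psi_out
          have : |a - b| ≤ |z.re - a| + |z.re - b| := by
            have e : a - b = (z.re - b) - (z.re - a) := by ring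
            rw [e]
            refine (abs_sub _ _).trans ?_
            linarith
          linarith
        have h3 := term_lip n a z w
        have h4 := term_lip n b z w
        rw [h1, mul_zero, sub_zero] at h3
        rw [h2, mul_zero, zero_sub, norm_neg] at h4
        refine (norm_sub_le _ _).trans ?_
        rw [hc] at h3 h4 ⊢
        linarith
    · push Not at hw
      rw [u_zero (z := w) (fun b hb => (hw b hb).le), sub_zero, u_single ha haz]
      have h3 := term_lip n a z w
      rw [Psi_out (z := w) (hw a ha).le, mul_zero, sub_zero] at h3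
      refine h3.trans ?_
      rw [hc]; linarith
  · push Not at hz
    rw [u_zero (z := z) (fun b hb => (hz b hb).le), zero_sub, norm_neg]
    by_cases hw : ∃ b ∈ E n, |w.re - b| ≤ r n
    · obtain ⟨b, hb, hbw⟩ := hw
      rw [u_single hb hbw]
      have h3 := term_lip n b z w
      rw [Psi_out (z := z) (hz b hb).le, mul_zero, zero_sub, norm_neg] at h3
      refine h3.trans ?_
      rw [hc]; linarith
    · push Not at hw
      rw [u_zero (z := w) (fun b hb => (hw b hb).le), norm_zero]
      positivity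

theorem g_inner {n : ℕ} {z : ℂ} {a : ℝ} (ha : a ∈ E n) (h : |z.re - a| ≤ r n / 2) :
    g n z = z + ((c * r n : ℝ) : ℂ) * Complex.cosh ((z - a) / (r n : ℂ)) := by
  have hr := r_pos n
  unfold g
  rw [u_single ha (by linarith), Psi_inner]
  rw [abs_re_div, div_le_iff₀ hr]
  linarith

theorem g_disp (n : ℕ) (z : ℂ) : ‖g n z - z‖ ≤ 3 * c * r n := by
  unfold g
  rw [add_sub_cancel_left]
  exact u_norm n z

theorem g_upper (n : ℕ) (z w : ℂ) : ‖g n z - g n w‖ ≤ 101 / 100 * ‖z - w‖ := by
  have h1 := u_lip n z w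
  have e : g n z - g n w = (z - w) + (u n z - u n w) := by unfold g; ring
  rw [e]
  have h2 := norm_add_le (z - w) (u n z - u n w)
  linarith

theorem g_lower (n : ℕ) (z w : ℂ) : 99 / 100 * ‖z - w‖ ≤ ‖g n z - g n w‖ := by
  have h1 := u_lip n z w
  have e : z - w = (g n z - g n w) - (u n z - u n w) := by unfold g; ring
  have h2 := norm_sub_le (g n z - g n w) (u n z - u n w)
  rw [← e] at h2
  linarith

theorem g_continuous (n : ℕ) : Continuous (g n) := by
  have : LipschitzWith (101 / 100) (g n) := by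
    apply LipschitzWith.of_dist_le_mul
    intro z w
    rw [dist_eq_norm, dist_eq_norm]
    have := g_upper n z w
    simpa using this
  exact this.continuous

theorem g_surjective (n : ℕ) : Function.Surjective (g n) := by
  have h : ApproximatesLinearOn (g n) ((ContinuousLinearEquiv.refl ℝ ℂ : ℂ ≃L[ℝ] ℂ) : ℂ →L[ℝ] ℂ)
      univ (1 / 100) := by
    intro z _ w _
    have h1 := u_lip n z w
    have e : g n z - g n w - ((ContinuousLinearEquiv.refl ℝ ℂ : ℂ ≃L[ℝ] ℂ) : ℂ →L[ℝ] ℂ) (z - w) =
        u n z - u n w := by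
      simp only [ContinuousLinearEquiv.coe_coe, ContinuousLinearEquiv.refl_apply]
      unfold g; ring
    rw [e]
    simpa using h1
  have hc : Subsingleton ℂ ∨ (1 / 100 : NNReal) <
      ‖((ContinuousLinearEquiv.refl ℝ ℂ).symm : ℂ →L[ℝ] ℂ)‖₊⁻¹ := by
    right
    have : ‖((ContinuousLinearEquiv.refl ℝ ℂ).symm : ℂ →L[ℝ] ℂ)‖₊ = 1 := by
      have h1 : ((ContinuousLinearEquiv.refl ℝ ℂ).symm : ℂ →L[ℝ] ℂ) =
        ContinuousLinearMap.id ℝ ℂ := rfl
      rw [h1]
      ext
      exact ContinuousLinearMap.norm_id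
    rw [this, inv_one]
    norm_num
  exact (h.toHomeomorph (g n) hc).surjective

end Pool.Agent.X148.QC
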