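import Pool.Agent.X148.QC1

set_option autoImplicit false

open Set Filter Topology

namespace Pool.Agent.X148.QC

/-! ### Compositions -/

/-- `G n l = g n ∘ g (n+1) ∘ ⋯ ∘ g (n+l-1)` -/
noncomputable def G (n : ℕ) : ℕ → ℂ → ℂ
  | 0 => fun z => z
  | l + 1 => fun z => G n l (g (n + l) z)

theorem G_zero (n : ℕ) (z : ℂ) : G n 0 z = z := rfl

theorem G_succ (n l : ℕ) (z : ℂ) : G n (l + 1) z = G n l (g (n + l) z) := rfl

theorem G_succ_left (n l : ℕ) (z : ℂ) : G n (l + 1) z = g n (G (n + 1) l z) := by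
  induction l generalizing z with
  | zero => rfl
  | succ l ih =>
    rw [G_succ, ih, G_succ (n + 1)]
    congr 3
    ring

/-- `F n = g 0 ∘ ⋯ ∘ g (n-1)` -/
noncomputable def F (n : ℕ) : ℂ → ℂ := G 0 n

theorem F_zero (z : ℂ) : F 0 z = z := rfl

theorem F_succ (n : ℕ) (z : ℂ) : F (n + 1) z = F n (g n z) := by
  unfold F
  rw [G_succ, zero_add]

theorem F_G (n l : ℕ) (z : ℂ) : F n (G n l z) = F (n + l) z := by
  induction l generalizing z with
  | zero => rfl
  | succ l ih => rw [G_succ, ih, ← add_assoc, F_succ]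

theorem G_upper (n l : ℕ) (z w : ℂ) : ‖G n l z - G n l w‖ ≤ (101 / 100) ^ l * ‖z - w‖ := by
  induction l generalizing z w with
  | zero => simp [G_zero]
  | succ l ih =>
    rw [G_succ, G_succ, pow_succ, mul_assoc]
    refine (ih _ _).trans ?_
    have := g_upper (n + l) z w
    gcongr

theorem G_lower (n l : ℕ) (z w : ℂ) : (99 / 100) ^ l * ‖z - w‖ ≤ ‖G n l z - G n l w‖ := by
  induction l generalizing z w with
  | zero => simp [G_zero]
  | succ l ih =>
    rw [G_succ, G_succ, pow_succ, mul_assoc]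
    refine le_trans ?_ (ih _ _)
    have := g_lower (n + l) z w
    gcongr

theorem G_disp (n l : ℕ) (z : ℂ) : ‖G n l z - z‖ ≤ 6 * c * r n := by
  have hc := c_pos
  induction l generalizing n z with
  | zero =>
    rw [G_zero, sub_self, norm_zero]
    have := r_pos n
    positivity
  | succ l ih =>
    rw [G_succ_left]
    have h1 := g_disp n (G (n + 1) l z)
    have h2 := ih (n + 1) z
    have h3 := r_succ_le_r n
    have h4 := r_pos n
    have e : g n (G (n + 1) l z) - z = (g n (G (n + 1) l z) - G (n + 1) l z) +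
      (G (n + 1) l z - z) := by ring
    rw [e]
    refine (norm_add_le _ _).trans ?_
    have h5 : c * r (n + 1) ≤ c * (r n / 1000000) := by gcongr
    have h6 : 0 < c * r n := by positivity
    linarith

theorem G_continuous (n l : ℕ) : Continuous (G n l) := by
  induction l with
  | zero => exact continuous_id
  | succ l ih => exact ih.comp (g_continuous (n + l))

theorem G_surjective (n l : ℕ) : Function.Surjective (G n l) := by
  induction l with
  | zero => exact fun z => ⟨z, rfl⟩
  | succ l ih => exact ih.comp (g_surjective (n + l))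

theorem G_step (n l : ℕ) (z : ℂ) : ‖G n l z - G n (l + 1) z‖ ≤ 3 * c * r n * (1 / 2) ^ l := by
  rw [G_succ]
  refine (G_upper n l z (g (n + l) z)).trans ?_
  have h1 := g_disp (n + l) z
  rw [norm_sub_rev] at h1
  have h2 := r_add_le n l
  have h3 := r_pos n
  have hc := c_pos
  calc (101 / 100 : ℝ) ^ l * ‖z - g (n + l) z‖ ≤ (101 / 100) ^ l * (3 * c * r (n + l)) := by
        gcongr
    _ ≤ (101 / 100) ^ l * (3 * c * (r n * (1 / 4) ^ l)) := by gcongr
    _ = 3 * c * r n * ((101 / 100) ^ l * (1 / 4) ^ l) := by ring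
    _ = 3 * c * r n * ((101 / 400) ^ l) := by rw [← mul_pow]; norm_num
    _ ≤ 3 * c * r n * (1 / 2) ^ l := by
        have hp : (101 / 400 : ℝ) ^ l ≤ (1 / 2) ^ l :=
          pow_le_pow_left₀ (by norm_num) (by norm_num) l
        exact mul_le_mul_of_nonneg_left hp (by positivity)

theorem G_cauchy (n : ℕ) (z : ℂ) : CauchySeq (fun l => G n l z) := by
  apply cauchySeq_of_le_geometric (1 / 2) (3 * c * r n) (by norm_num)
  intro l
  rw [dist_eq_norm]
  exact G_step n l z

theorem exists_h (n : ℕ) (z : ℂ) : ∃ w, Tendsto (fun l => G n l z) atTop (𝓝 w) :=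
  cauchySeq_tendsto_of_complete (G_cauchy n z)

/-- `h n = g n ∘ g (n+1) ∘ ⋯` -/
noncomputable def h (n : ℕ) (z : ℂ) : ℂ := Classical.choose (exists_h n z)

theorem h_spec (n : ℕ) (z : ℂ) : Tendsto (fun l => G n l z) atTop (𝓝 (h n z)) :=
  Classical.choose_spec (exists_h n z)

theorem h_rec (n : ℕ) (z : ℂ) : h n z = g n (h (n + 1) z) := by
  have h1 : Tendsto (fun l => G n (l + 1) z) atTop (𝓝 (h n z)) :=
    (h_spec n z).comp (tendsto_add_atTop_nat 1)
  have h2 : Tendsto (fun l => g n (G (n + 1) l z)) atTop (𝓝 (g n (h (n + 1) z))) :=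
    ((g_continuous n).tendsto _).comp (h_spec (n + 1) z)
  have h3 : (fun l => G n (l + 1) z) = fun l => g n (G (n + 1) l z) := by
    funext l; exact G_succ_left n l z
  rw [h3] at h1
  exact tendsto_nhds_unique h1 h2

theorem h_disp (n : ℕ) (z : ℂ) : ‖h n z - z‖ ≤ 6 * c * r n :=
  le_of_tendsto ((h_spec n z).sub_const z).norm (Eventually.of_forall fun l => G_disp n l z)

theorem h_G (n l : ℕ) (z : ℂ) : h n z = G n l (h (n + l) z) := by
  induction l with
  | zero => rfl
  | succ l ih => rw [G_succ, ih, h_rec (n + l), add_assoc]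

/-- the limit map -/
noncomputable def f (z : ℂ) : ℂ := h 0 z

theorem f_eq (n : ℕ) (z : ℂ) : f z = F n (h n z) := by
  have := h_G 0 n z
  rw [zero_add] at this
  exact this

theorem h_upper (n l : ℕ) (z w : ℂ) :
    ‖h n z - h n w‖ ≤ (101 / 100) ^ l * (‖z - w‖ + 12 * c * r (n + l)) := by
  rw [h_G n l z, h_G n l w]
  refine (G_upper n l _ _).trans ?_
  gcongr
  have h1 := h_disp (n + l) z
  have h2 := h_disp (n + l) w
  have e : h (n + l) z - h (n + l) w = (h (n + l) z - z) + (z - w) - (h (n + l) w - w) := by ring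
  rw [e]
  have h3 := norm_sub_le ((h (n + l) z - z) + (z - w)) (h (n + l) w - w)
  have h4 := norm_add_le (h (n + l) z - z) (z - w)
  linarith

theorem h_lower (n l : ℕ) (z w : ℂ) :
    (99 / 100) ^ l * (‖z - w‖ - 12 * c * r (n + l)) ≤ ‖h n z - h n w‖ := by
  rw [h_G n l z, h_G n l w]
  refine le_trans ?_ (G_lower n l _ _)
  gcongr
  have h1 := h_disp (n + l) z
  have h2 := h_disp (n + l) w
  have e : z - w = (h (n + l) z - h (n + l) w) - (h (n + l) z - z) + (h (n + l) w - w) := by ring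
  have h3 := norm_add_le ((h (n + l) z - h (n + l) w) - (h (n + l) z - z)) (h (n + l) w - w)
  have h4 := norm_sub_le (h (n + l) z - h (n + l) w) (h (n + l) z - z)
  rw [← e] at h3
  linarith

theorem f_continuous : Continuous f := by
  rw [Metric.continuous_iff]
  intro z ε hε
  have hc := c_pos
  have ht : Tendsto (fun l : ℕ => 3 * c * r 0 * (1 / 2) ^ l * 4) atTop (𝓝 (3 * c * r 0 * 0 * 4)) :=
    ((tendsto_pow_atTop_nhds_zero_of_lt_one (by norm_num) (by norm_num)).const_mul _).mul_const _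
  simp only [mul_zero, zero_mul] at ht
  obtain ⟨l, hl⟩ := ((tendsto_order.1 ht).2 (ε / 2) (by positivity)).exists
  refine ⟨ε / (2 * (101 / 100) ^ l), by positivity, fun w hw => ?_⟩
  rw [dist_eq_norm] at hw ⊢
  have h1 := h_upper 0 l w z
  rw [zero_add] at h1
  have h2 : (101 / 100 : ℝ) ^ l * (12 * c * r l) ≤ 3 * c * r 0 * (1 / 2) ^ l * 4 := by
    have h3 := r_add_le 0 l
    rw [zero_add] at h3
    have hr := r_pos 0
    calc (101 / 100 : ℝ) ^ l * (12 * c * r l) ≤ (101 / 100) ^ l * (12 * c * (r 0 * (1 / 4) ^ l)) := by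
          gcongr
      _ = 3 * c * r 0 * ((101 / 100) ^ l * (1 / 4) ^ l) * 4 := by ring
      _ = 3 * c * r 0 * ((101 / 400) ^ l) * 4 := by rw [← mul_pow]; norm_num
      _ ≤ 3 * c * r 0 * (1 / 2) ^ l * 4 := by
          have hp : (101 / 400 : ℝ) ^ l ≤ (1 / 2) ^ l :=
            pow_le_pow_left₀ (by norm_num) (by norm_num) l
          exact mul_le_mul_of_nonneg_right (mul_le_mul_of_nonneg_left hp (by positivity))
            (by norm_num)
  have h4 : (101 / 100 : ℝ) ^ l * ‖w - z‖ < ε / 2 := by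
    rw [lt_div_iff₀ (by positivity)] at hw
    rw [lt_div_iff₀ (by norm_num)]
    linarith
  have h5 : ‖f w - f z‖ ≤ (101 / 100) ^ l * ‖w - z‖ + (101 / 100) ^ l * (12 * c * r l) := by
    unfold f
    linarith
  linarith

theorem f_injective : Function.Injective f := by
  intro z w hzw
  by_contra hne
  have hpos : 0 < ‖z - w‖ := norm_pos_iff.2 (sub_ne_zero.2 hne)
  have hc : c = 1 / 2000 := rfl
  obtain ⟨l, hl⟩ := ((tendsto_order.1 r_tendsto).2 ‖z - w‖ hpos).exists
  have h1 := h_lower 0 l z w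
  rw [zero_add] at h1
  have h2 : h 0 z - h 0 w = 0 := sub_eq_zero.2 hzw
  rw [h2, norm_zero] at h1
  have hr := r_pos l
  have h3 : 0 < ‖z - w‖ - 12 * c * r l := by rw [hc]; linarith
  have h4 : 0 < (99 / 100 : ℝ) ^ l * (‖z - w‖ - 12 * c * r l) := by positivity
  linarith

theorem f_disp (z : ℂ) : ‖f z - z‖ ≤ 1 := by
  have := h_disp 0 z
  have hc : c = 1 / 2000 := rfl
  have hr : r 0 = 1 := rfl
  rw [hc, hr] at this
  unfold f
  linarith

theorem f_surjective : Function.Surjective f := by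
  intro w
  have hc := c_pos
  have hex : ∀ n, ∃ z, F n z = w := fun n => G_surjective 0 n w
  choose z hz using hex
  have hbd : ∀ n, z n ∈ Metric.closedBall w 1 := by
    intro n
    rw [mem_closedBall_iff_norm, norm_sub_rev]
    have h1 := G_disp 0 n (z n)
    have h2 : G 0 n (z n) = w := hz n
    rw [h2] at h1
    have hc' : c = 1 / 2000 := rfl
    have hr : r 0 = 1 := rfl
    rw [hc', hr] at h1
    linarith
  obtain ⟨z0, -, φ, hφ, hlim⟩ := (isCompact_closedBall w 1).tendsto_subseq hbd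
  refine ⟨z0, ?_⟩
  have h1 : Tendsto (fun n => f (z n)) atTop (𝓝 w) := by
    rw [tendsto_iff_norm_sub_tendsto_zero]
    have ht : Tendsto (fun l : ℕ => 3 * c * r 0 * (1 / 2) ^ l * 4) atTop
        (𝓝 (3 * c * r 0 * 0 * 4)) :=
      ((tendsto_pow_atTop_nhds_zero_of_lt_one (by norm_num) (by norm_num)).const_mul _).mul_const _
    simp only [mul_zero, zero_mul] at ht
    refine squeeze_zero (fun n => norm_nonneg _) (fun n => ?_) ht
    rw [f_eq n, ← hz n]
    have h2 := G_upper 0 n (h n (z n)) (z n)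
    have h3 := h_disp n (z n)
    have h4 := r_add_le 0 n
    rw [zero_add] at h4
    have hr := r_pos 0
    refine h2.trans ?_
    calc (101 / 100 : ℝ) ^ n * ‖h n (z n) - z n‖ ≤ (101 / 100) ^ n * (6 * c * r n) := by gcongr
      _ ≤ (101 / 100) ^ n * (6 * c * (r 0 * (1 / 4) ^ n)) := by gcongr
      _ = 3 * c * r 0 * ((101 / 100) ^ n * (1 / 4) ^ n) * 2 := by ring
      _ = 3 * c * r 0 * ((101 / 400) ^ n) * 2 := by rw [← mul_pow]; norm_num
      _ ≤ 3 * c * r 0 * (1 / 2) ^ n * 4 := by
          have hp : (101 / 400 : ℝ) ^ n ≤ (1 / 2) ^ n :=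
            pow_le_pow_left₀ (by norm_num) (by norm_num) n
          have hp2 : 3 * c * r 0 * (101 / 400 : ℝ) ^ n ≤ 3 * c * r 0 * (1 / 2) ^ n :=
            mul_le_mul_of_nonneg_left hp (by positivity)
          have hp3 : 0 ≤ 3 * c * r 0 * (1 / 2) ^ n := by positivity
          linarith
  have h2 : Tendsto (fun n => f (z (φ n))) atTop (𝓝 w) := h1.comp hφ.tendsto_atTop
  have h3 : Tendsto (fun n => f (z (φ n))) atTop (𝓝 (f z0)) :=
    (f_continuous.tendsto z0).comp hlim
  exact tendsto_nhds_unique h3 h2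

theorem f_closedMap : IsClosedMap f := by
  have : IsProperMap f := by
    rw [isProperMap_iff_tendsto_cocompact]
    refine ⟨f_continuous, ?_⟩
    rw [← Metric.cobounded_eq_cocompact, ← tendsto_norm_atTop_iff_cobounded,
      Metric.cobounded_eq_cocompact]
    have h1 : Tendsto (fun z : ℂ => ‖z‖ - 1) (cocompact ℂ) atTop :=
      tendsto_atTop_add_const_right _ (-1) tendsto_norm_cocompact_atTop
    refine tendsto_atTop_mono (fun z => ?_) h1
    have h2 := f_disp z
    have h3 := norm_sub_norm_le z (f z)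
    rw [norm_sub_rev] at h3
    linarith
  exact this.isClosedMap

/-- the homeomorphism -/
noncomputable def fh : ℂ ≃ₜ ℂ :=
  (Equiv.ofBijective f ⟨f_injective, f_surjective⟩).toHomeomorphOfContinuousClosed
    f_continuous f_closedMap

theorem fh_apply (z : ℂ) : fh z = f z := rfl

end Pool.Agent.X148.QC
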