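import Pool.Agent.X148.QC2

set_option autoImplicit false

open Set Filter Topology

namespace Pool.Agent.X148.QC

/-! ### Near affine behaviour of `F n` -/

theorem sinh_lip {z w : ℂ} (hz : |z.re| ≤ 1) (hw : |w.re| ≤ 1) :
    ‖Complex.sinh z - Complex.sinh w‖ ≤ 3 * ‖z - w‖ := by
  have hconv : Convex ℝ {z : ℂ | |z.re| ≤ 1} := by
    have : {z : ℂ | |z.re| ≤ 1} = Complex.reLm ⁻¹' (Icc (-1) 1) := by
      ext z
      simp [abs_le]
    rw [this]
    exact (convex_Icc _ _).linear_preimage _
  exact hconv.norm_image_sub_le_of_norm_deriv_le (f := Complex.sinh) (C := 3)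
    (fun x _ => Complex.differentiable_sinh x)
    (fun x hx => by rw [Complex.deriv_sinh]; exact norm_cosh_le hx) hw hz

theorem abs_re_sinh_le {z : ℂ} (hz : |z.re| ≤ 1) : |(Complex.sinh z).re| ≤ 3 * |z.re| := by
  set w : ℂ := (z.im : ℂ) * Complex.I with hw
  have hwre : w.re = 0 := by simp [hw]
  have h1 := sinh_lip (w := w) hz (by rw [hwre]; simp)
  have h2 : (Complex.sinh w).re = 0 := by
    rw [hw, Complex.sinh_mul_I]
    have : (Complex.sin (z.im : ℂ)) = ((Real.sin z.im : ℝ) : ℂ) := (Complex.ofReal_sin _).symm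
    rw [this]
    simp
  have h3 : z - w = (z.re : ℂ) := by
    apply Complex.ext <;> simp [hw]
  rw [h3, Complex.norm_real, Real.norm_eq_abs] at h1
  have h4 := Complex.abs_re_le_norm (Complex.sinh z - Complex.sinh w)
  rw [Complex.sub_re, h2, sub_zero] at h4
  linarith

/-- curvature bounds -/
noncomputable def S : ℕ → ℝ
  | 0 => 0
  | n + 1 => 1 / r n

theorem S_nonneg (n : ℕ) : 0 ≤ S n := by
  cases n with
  | zero => exact le_refl _
  | succ n =>
    have := r_pos n
    simp only [S]; positivity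

theorem S_mul_r (n : ℕ) : S n * r n ≤ 1 / 1000000 := by
  cases n with
  | zero => simp [S]
  | succ n =>
    have h1 := r_pos n
    have h2 := r_succ_le_r n
    simp only [S]
    rw [one_div, inv_mul_le_iff₀ h1]
    linarith

theorem near_affine (e : ℕ → ℝ)
    (he : ∀ k, 0 < e k ∧ e k ≤ 1 ∧ 12 * c * r (k + 1) ≤ e k * r k) (n : ℕ) :
    ∀ x p : ℂ, (∀ k < n, ∃ a ∈ E k, |x.re - a| ≤ r k / 16 ∧ |x.re - a| ≤ e k * r k / 2) →
    ‖p - x‖ ≤ 6 * c * r n →
    ∃ D : ℂ, D ≠ 0 ∧ 1 - ∑ k ∈ Finset.range n, e k ≤ ‖D‖ ∧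
      ∀ w, ‖w - p‖ ≤ 8 * r n → ‖F n w - F n p - D * (w - p)‖ ≤ S n * ‖D‖ * ‖w - p‖ ^ 2 := by
  induction n with
  | zero =>
    intro x p _ _
    refine ⟨1, one_ne_zero, by simp, fun w _ => ?_⟩
    rw [F_zero, F_zero]
    simp [S]
  | succ n ih =>
    intro x p hx hp
    have hc : c = 1 / 2000 := rfl
    have hr := r_pos n
    have hr1 := r_pos (n + 1)
    have hrs := r_succ_le_r n
    obtain ⟨he0, he1, he2⟩ := he n
    obtain ⟨a, haE, ha16, hae⟩ := hx n (Nat.lt_succ_self n)
    have hgp : ‖g n p - x‖ ≤ 6 * c * r n := by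
      have h1 := g_disp n p
      have e1 : g n p - x = (g n p - p) + (p - x) := by ring
      rw [e1]
      refine (norm_add_le _ _).trans ?_
      rw [hc] at h1 hp ⊢
      linarith
    obtain ⟨D', hD'0, hD'1, hD'2⟩ := ih x (g n p) (fun k hk => hx k (Nat.lt_succ_of_lt hk)) hgp
    -- positions
    have hpre : |p.re - a| ≤ r n / 16 + 6 * c * r (n + 1) := by
      have h1 : |p.re - x.re| ≤ ‖p - x‖ := by
        rw [← Complex.sub_re]; exact Complex.abs_re_le_norm _
      have h2 : |p.re - a| ≤ |p.re - x.re| + |x.re - a| := by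
        have : p.re - a = (p.re - x.re) + (x.re - a) := by ring
        rw [this]; exact abs_add_le _ _
      linarith
    have hpre2 : |p.re - a| ≤ e n * r n := by
      have h1 : |p.re - x.re| ≤ ‖p - x‖ := by
        rw [← Complex.sub_re]; exact Complex.abs_re_le_norm _
      have h2 : |p.re - a| ≤ |p.re - x.re| + |x.re - a| := by
        have : p.re - a = (p.re - x.re) + (x.re - a) := by ring
        rw [this]; exact abs_add_le _ _
      linarith
    set α : ℂ := (p - a) / (r n : ℂ) with hα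
    have hαre : |α.re| ≤ e n := by
      rw [hα, abs_re_div, div_le_iff₀ hr]
      exact hpre2
    have hαre1 : |α.re| ≤ 1 := hαre.trans he1
    have hgp_eq : g n p = p + ((c * r n : ℝ) : ℂ) * Complex.cosh α := by
      apply g_inner haE
      rw [hc] at hpre
      linarith
    set m : ℂ := 1 + (c : ℂ) * Complex.sinh α with hm
    have hm1 : 1 - e n ≤ ‖m‖ := by
      have h1 : m.re = 1 + c * (Complex.sinh α).re := by
        rw [hm]; simp
      have h2 := abs_re_sinh_le hαre1
      have h3 := Complex.abs_re_le_norm m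
      have h4 : -(3 * |α.re|) ≤ (Complex.sinh α).re := by
        have := neg_abs_le (Complex.sinh α).re
        linarith
      have h5 : c * (-(3 * |α.re|)) ≤ c * (Complex.sinh α).re :=
        mul_le_mul_of_nonneg_left h4 c_pos.le
      have h6 := le_abs_self m.re
      rw [hc] at h5 h1
      linarith [abs_nonneg α.re]
    have hm2 : 1 / 2 ≤ ‖m‖ := by
      have h1 := norm_sinh_le hαre1
      have h2 : ‖(c : ℂ) * Complex.sinh α‖ ≤ 1 / 2 := by
        rw [norm_mul, Complex.norm_real, Real.norm_of_nonneg c_pos.le, hc]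
        linarith
      have h3 : ‖(1 : ℂ)‖ ≤ ‖m‖ + ‖(c : ℂ) * Complex.sinh α‖ := by
        have h5 : m - (c : ℂ) * Complex.sinh α = 1 := by rw [hm]; ring
        have h4 := norm_sub_le m ((c : ℂ) * Complex.sinh α)
        rw [h5] at h4
        exact h4
      rw [norm_one] at h3
      linarith
    have hmpos : 0 < ‖m‖ := by linarith
    have hm0 : m ≠ 0 := norm_pos_iff.1 hmpos
    have hD'pos : 0 < ‖D'‖ := norm_pos_iff.2 hD'0
    refine ⟨D' * m, mul_ne_zero hD'0 hm0, ?_, fun w hw => ?_⟩
    · rw [Finset.sum_range_succ, norm_mul]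
      by_cases hL : 1 - ∑ k ∈ Finset.range n, e k ≤ 0
      · have : 0 < ‖D'‖ * ‖m‖ := by positivity
        linarith
      · push Not at hL
        have hs : 0 ≤ ∑ k ∈ Finset.range n, e k :=
          Finset.sum_nonneg fun k _ => (he k).1.le
        have h1 : (1 - ∑ k ∈ Finset.range n, e k) * (1 - e n) ≤ ‖D'‖ * ‖m‖ := by
          apply mul_le_mul hD'1 hm1 (by linarith) hD'pos.le
        nlinarith
    · -- the map `g n` near `p`
      have hwa : |w.re - a| ≤ r n / 2 := by
        have h1 : |w.re - p.re| ≤ ‖w - p‖ := by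
          rw [← Complex.sub_re]; exact Complex.abs_re_le_norm _
        have h2 : |w.re - a| ≤ |w.re - p.re| + |p.re - a| := by
          have : w.re - a = (w.re - p.re) + (p.re - a) := by ring
          rw [this]; exact abs_add_le _ _
        rw [hc] at hpre
        linarith
      have hgw_eq : g n w = w + ((c * r n : ℝ) : ℂ) * Complex.cosh ((w - a) / (r n : ℂ)) :=
        g_inner haE hwa
      set η : ℂ := (w - p) / (r n : ℂ) with hη
      have hηn : ‖η‖ = ‖w - p‖ / r n := by
        rw [hη, norm_div, Complex.norm_real, Real.norm_of_nonneg hr.le]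
      have hη1 : ‖η‖ ≤ 1 := by
        rw [hηn, div_le_one hr]
        linarith
      have hrc : (r n : ℂ) ≠ 0 := by exact_mod_cast hr.ne'
      have hwα : (w - a) / (r n : ℂ) = α + η := by
        rw [hα, hη]
        field_simp
        ring
      have hdiff : g n w - g n p - m * (w - p) = ((c * r n : ℝ) : ℂ) *
          (Complex.cosh (α + η) - Complex.cosh α - Complex.sinh α * η) := by
        rw [hgw_eq, hgp_eq, hwα, hm]
        have : w - p = (r n : ℂ) * η := by rw [hη]; field_simp
        rw [this]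
        have hw' : w = p + (r n : ℂ) * η := by rw [← this]; ring
        rw [hw']
        push_cast
        ring
      have hdn : ‖g n w - g n p - m * (w - p)‖ ≤ 6 * c / r n * ‖w - p‖ ^ 2 := by
        rw [hdiff, norm_mul, Complex.norm_real, Real.norm_of_nonneg (by rw [hc]; positivity)]
        have h1 := cosh_taylor hαre1 hη1
        have hcp := c_pos
        calc c * r n * ‖Complex.cosh (α + η) - Complex.cosh α - Complex.sinh α * η‖
            ≤ c * r n * (6 * ‖η‖ ^ 2) := by gcongr
          _ = 6 * c / r n * ‖w - p‖ ^ 2 := by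
              rw [hηn]; field_simp
      have hup := g_upper n w p
      have hw8 : ‖g n w - g n p‖ ≤ 8 * r n := by linarith
      have h1 := hD'2 (g n w) hw8
      rw [F_succ, F_succ]
      have e1 : F n (g n w) - F n (g n p) - D' * m * (w - p) =
          (F n (g n w) - F n (g n p) - D' * (g n w - g n p)) +
            D' * (g n w - g n p - m * (w - p)) := by ring
      rw [e1]
      refine (norm_add_le _ _).trans ?_
      rw [norm_mul D', norm_mul D' m]
      have h2 : S n * ‖D'‖ * ‖g n w - g n p‖ ^ 2 ≤ S n * ‖D'‖ * (101 / 100 * ‖w - p‖) ^ 2 := by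
        have := S_nonneg n
        gcongr
      have h3 : ‖D'‖ * ‖g n w - g n p - m * (w - p)‖ ≤ ‖D'‖ * (6 * c / r n * ‖w - p‖ ^ 2) := by
        gcongr
      have h4 : S n ≤ 1 / 1000000 / r n := by
        rw [le_div_iff₀ hr]; exact S_mul_r n
      have h5 : S n * (101 / 100) ^ 2 + 6 * c / r n ≤ 1 / r n * ‖m‖ := by
        have h6 : S n * (101 / 100) ^ 2 ≤ 1 / 1000000 / r n * (101 / 100) ^ 2 := by gcongr
        have h7 : 1 / 1000000 / r n * (101 / 100) ^ 2 + 6 * c / r n ≤ 1 / r n * (1 / 2) := by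
          have q1 : 1 / 1000000 / r n * (101 / 100) ^ 2 + 6 * c / r n =
              (1 / 1000000 * (101 / 100) ^ 2 + 6 * c) / r n := by ring
          have q2 : 1 / r n * (1 / 2) = (1 / 2) / r n := by ring
          rw [q1, q2, hc]
          apply div_le_div_of_nonneg_right _ hr.le
          norm_num
        have h8 : 1 / r n * (1 / 2) ≤ 1 / r n * ‖m‖ := by gcongr
        linarith
      calc ‖F n (g n w) - F n (g n p) - D' * (g n w - g n p)‖ +
            ‖D'‖ * ‖g n w - g n p - m * (w - p)‖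
          ≤ S n * ‖D'‖ * (101 / 100 * ‖w - p‖) ^ 2 + ‖D'‖ * (6 * c / r n * ‖w - p‖ ^ 2) := by
            linarith
        _ = (S n * (101 / 100) ^ 2 + 6 * c / r n) * (‖D'‖ * ‖w - p‖ ^ 2) := by ring
        _ ≤ (1 / r n * ‖m‖) * (‖D'‖ * ‖w - p‖ ^ 2) := by gcongr
        _ = S (n + 1) * (‖D'‖ * ‖m‖) * ‖w - p‖ ^ 2 := by simp only [S]; ring

theorem ratio_of {D F₁ F₂ v : ℂ} {s : ℝ} (h : ‖F₁ - F₂ - D * v‖ ≤ s * ‖D‖ * ‖v‖ ^ 2)
    (hs : s * ‖v‖ ≤ 1 / 100) :
    99 / 100 * (‖D‖ * ‖v‖) ≤ ‖F₁ - F₂‖ ∧ ‖F₁ - F₂‖ ≤ 101 / 100 * (‖D‖ * ‖v‖) := by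
  have h1 : s * ‖D‖ * ‖v‖ ^ 2 ≤ 1 / 100 * (‖D‖ * ‖v‖) := by
    have : s * ‖D‖ * ‖v‖ ^ 2 = (s * ‖v‖) * (‖D‖ * ‖v‖) := by ring
    rw [this]
    gcongr
  have h2 : ‖D * v‖ = ‖D‖ * ‖v‖ := norm_mul _ _
  have h3 : ‖F₁ - F₂‖ ≤ ‖F₁ - F₂ - D * v‖ + ‖D * v‖ := by
    have := norm_add_le (F₁ - F₂ - D * v) (D * v)
    rwa [sub_add_cancel] at this
  have h4 : ‖D * v‖ ≤ ‖F₁ - F₂‖ + ‖F₁ - F₂ - D * v‖ := by
    have := norm_sub_le (F₁ - F₂) (F₁ - F₂ - D * v)
    rwa [sub_sub_cancel] at this
  constructor <;> linarith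

/-! ### Quasiconformality -/

theorem one_ok : ∀ k : ℕ, 0 < (1 : ℝ) ∧ (1 : ℝ) ≤ 1 ∧ 12 * c * r (k + 1) ≤ 1 * r k := by
  intro k
  have hc : c = 1 / 2000 := rfl
  have h1 := r_succ_le_r k
  have h2 := r_pos k
  refine ⟨by norm_num, le_refl _, ?_⟩
  rw [hc]; linarith

theorem qc_line {x : ℂ} (hx : ∀ k, ∃ a ∈ E k, |x.re - a| ≤ 2 * d k) :
    ∀ y z : ℂ, dist y x = dist z x → dist y x < 1 →
      dist (f y) (f x) ≤ 2 * dist (f z) (f x) := by
  intro y z hyz hy1
  have hc : c = 1 / 2000 := rfl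
  rw [dist_eq_norm, dist_eq_norm] at hyz
  rw [dist_eq_norm] at hy1
  rw [dist_eq_norm, dist_eq_norm]
  set ρ : ℝ := ‖y - x‖ with hρ
  rcases eq_or_lt_of_le (norm_nonneg (y - x)) with h0 | h0
  · have hy : y = x := sub_eq_zero.1 (norm_eq_zero.1 h0.symm)
    rw [hy, sub_self, norm_zero]
    positivity
  rw [← hρ] at h0
  have hex : ∃ m, r m ≤ ρ := ((tendsto_order.1 r_tendsto).2 ρ h0).exists.imp fun _ h => h.le
  obtain ⟨n, hn1, hn2⟩ : ∃ n, r (n + 1) ≤ ρ ∧ ρ < r n := by
    classical
    have h1 := Nat.find_spec hex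
    rcases Nat.eq_zero_or_pos (Nat.find hex) with h2 | h2
    · rw [h2] at h1
      have : r 0 = 1 := rfl
      linarith
    · refine ⟨Nat.find hex - 1, ?_, ?_⟩
      · rw [Nat.sub_add_cancel h2]; exact h1
      · have := Nat.find_min hex (m := Nat.find hex - 1) (by omega)
        exact not_le.1 this
  have hp : ‖h n x - x‖ ≤ 6 * c * r n := h_disp n x
  obtain ⟨D, hD0, -, hD⟩ := near_affine (fun _ => 1) one_ok n x (h n x) (fun k _ => by
    obtain ⟨a, ha, hxa⟩ := hx k
    have h1 := d_le k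
    have h2 := r_pos k
    exact ⟨a, ha, by linarith, by linarith⟩) hp
  have hr := r_pos n
  have hrr : r (n + 2) ≤ ρ / 1000000 := by
    have := r_succ_le_r (n + 1)
    have e : n + 1 + 1 = n + 2 := rfl
    rw [e] at this
    linarith
  have hr2 := r_pos (n + 2)
  have upper : ∀ w : ℂ, ‖w - x‖ = ρ → ‖h n w - h n x‖ ≤ 103 / 100 * ρ := by
    intro w hw
    have := h_upper n 2 w x
    rw [hw, hc] at this
    nlinarith
  have lower : ∀ w : ℂ, ‖w - x‖ = ρ → 97 / 100 * ρ ≤ ‖h n w - h n x‖ := by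
    intro w hw
    have := h_lower n 2 w x
    rw [hw, hc] at this
    nlinarith
  have hS : ∀ w : ℂ, ‖w - x‖ = ρ → S n * ‖h n w - h n x‖ ≤ 1 / 100 := by
    intro w hw
    have h1 := upper w hw
    have h2 := S_nonneg n
    have h3 := S_mul_r n
    have h4 : S n * ‖h n w - h n x‖ ≤ S n * (103 / 100 * r n) := by
      gcongr
      linarith
    nlinarith
  have hball : ∀ w : ℂ, ‖w - x‖ = ρ → ‖h n w - h n x‖ ≤ 8 * r n := by
    intro w hw
    have h1 := upper w hw
    linarith
  have hy := ratio_of (hD (h n y) (hball y rfl)) (hS y rfl)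
  have hz := ratio_of (hD (h n z) (hball z hyz.symm)) (hS z hyz.symm)
  rw [f_eq n y, f_eq n x, f_eq n z]
  have hDn : 0 ≤ ‖D‖ := norm_nonneg D
  have h1 : ‖D‖ * ‖h n y - h n x‖ ≤ ‖D‖ * (103 / 100 * ρ) := by
    have := upper y rfl
    gcongr
  have h2 : ‖D‖ * (97 / 100 * ρ) ≤ ‖D‖ * ‖h n z - h n x‖ := by
    have := lower z hyz.symm
    gcongr
  have h3 : 0 ≤ ‖D‖ * ρ := by positivity
  nlinarith [hy.2, hz.1]

/-- every point of `E (n+l)` is close to `E n` -/
theorem ancestor (n l : ℕ) : ∀ a ∈ E (n + l), ∃ b ∈ E n, |a - b| ≤ 2 * d n - 2 * d (n + l) := by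
  induction l with
  | zero =>
    intro a ha
    exact ⟨a, ha, by simp⟩
  | succ l ih =>
    intro a ha
    obtain ⟨a', ha', haa⟩ := exists_parent (n := n + l) ha
    obtain ⟨b, hb, hab⟩ := ih a' ha'
    refine ⟨b, hb, ?_⟩
    have h1 : |a - b| ≤ |a - a'| + |a' - b| := by
      have : a - b = (a - a') + (a' - b) := by ring
      rw [this]; exact abs_add_le _ _
    have h2 := d_succ_le (n + l)
    have h3 := d_pos (n + l)
    rw [← add_assoc]
    linarith

theorem E_nonempty (n : ℕ) : (E n).Nonempty := by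
  induction n with
  | zero => exact ⟨0, by simp [E]⟩
  | succ n ih =>
    obtain ⟨a, ha⟩ := ih
    exact ⟨a, mem_E_succ.2 (Or.inl ha)⟩

/-- near a point outside all tubes of level `n`, the maps `g n, g (n+1), …` are trivial -/
theorem local_id {n : ℕ} {x : ℂ} (hx : ∀ a ∈ E n, r n < |x.re - a|) :
    ∃ δ > 0, ∀ y : ℂ, ‖y - x‖ < δ → h n y = y := by
  obtain ⟨a0, ha0, hmin⟩ := Finset.exists_min_image (E n) (fun a => |x.re - a|) (E_nonempty n)
  have hr := r_pos n
  refine ⟨min (|x.re - a0| - r n) (r n / 4), lt_min (sub_pos.2 (hx a0 ha0)) (by positivity),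
    fun y hy => ?_⟩
  have hy1 := hy.trans_le (min_le_left _ _)
  have hy2 := hy.trans_le (min_le_right _ _)
  have hre : |y.re - x.re| ≤ ‖y - x‖ := by
    rw [← Complex.sub_re]; exact Complex.abs_re_le_norm _
  have hg : ∀ l, g (n + l) y = y := by
    intro l
    unfold g
    rw [u_zero, add_zero]
    intro a ha
    cases l with
    | zero =>
      have h1 := hmin a ha
      have h2 : |x.re - a| ≤ |y.re - x.re| + |y.re - a| := by
        have : x.re - a = (y.re - a) - (y.re - x.re) := by ring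
        rw [this]
        have := abs_sub (y.re - a) (y.re - x.re)
        linarith
      simp only [add_zero]
      linarith
    | succ l =>
      obtain ⟨b, hb, hab⟩ := ancestor n (l + 1) a ha
      have h1 := hx b hb
      have h2 : |x.re - b| ≤ |y.re - x.re| + |y.re - a| + |a - b| := by
        have e1 : x.re - b = (y.re - a) - (y.re - x.re) + (a - b) := by ring
        rw [e1]
        have h3 := abs_add_le ((y.re - a) - (y.re - x.re)) (a - b)
        have h4 := abs_sub (y.re - a) (y.re - x.re)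
        linarith
      have h5 := d_pos (n + (l + 1))
      have h6 := d_le n
      have h7 : r (n + (l + 1)) ≤ r (n + 1) := r_antitone (by omega)
      have h8 := r_succ_le_r n
      linarith
  have hG : ∀ l, G n l y = y := by
    intro l
    induction l with
    | zero => rfl
    | succ l ih => rw [G_succ, hg, ih]
  have h1 := h_spec n y
  simp only [hG] at h1
  exact tendsto_nhds_unique h1 tendsto_const_nhds

theorem qc (x : ℂ) : ∃ δ > (0 : ℝ), ∀ y z : ℂ, dist y x = dist z x → dist y x < δ →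
    dist (f y) (f x) ≤ 2 * dist (f z) (f x) := by
  by_cases hact : ∀ k, ∃ a ∈ E k, |x.re - a| ≤ r k
  · refine ⟨1, one_pos, qc_line fun k => ?_⟩
    obtain ⟨a', ha', hxa⟩ := hact (k + 1)
    obtain ⟨a, ha, haa⟩ := exists_parent ha'
    refine ⟨a, ha, ?_⟩
    have h1 : |x.re - a| ≤ |x.re - a'| + |a' - a| := by
      have : x.re - a = (x.re - a') + (a' - a) := by ring
      rw [this]; exact abs_add_le _ _
    have h2 := r_succ_le k
    have h3 := d_pos k
    linarith
  · classical
    have hex : ∃ k, ¬ ∃ a ∈ E k, |x.re - a| ≤ r k := by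
      by_contra hcon
      push Not at hcon
      exact hact hcon
    have hspec := Nat.find_spec hex
    have hminn := fun m (hm : m < Nat.find hex) => Nat.find_min hex hm
    generalize Nat.find hex = n0 at hspec hminn
    push Not at hspec
    obtain ⟨δ1, hδ1, hid⟩ := local_id hspec
    have hf : ∀ y, ‖y - x‖ < δ1 → f y = F n0 y := by
      intro y hy
      rw [f_eq n0, hid y hy]
    cases n0 with
    | zero =>
      refine ⟨δ1, hδ1, fun y z hyz hy => ?_⟩
      rw [dist_eq_norm] at hy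
      have hz : ‖z - x‖ < δ1 := by
        rw [dist_eq_norm, dist_eq_norm] at hyz
        rwa [← hyz]
      rw [hf y hy, hf z hz, hf x (by simpa using hδ1), F_zero, F_zero, F_zero, hyz]
      have := dist_nonneg (x := z) (y := x)
      linarith
    | succ m =>
      have hr := r_pos m
      have hc : c = 1 / 2000 := rfl
      have hp : ‖g m x - x‖ ≤ 6 * c * r m := by
        have := g_disp m x
        rw [hc] at this ⊢
        linarith
      obtain ⟨D, hD0, -, hD⟩ := near_affine (fun _ => 1) one_ok m x (g m x) (fun k hk => by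
        have hk' := hminn (k + 1) (by omega)
        rw [not_not] at hk'
        obtain ⟨a', ha', hxa⟩ := hk'
        obtain ⟨a, ha, haa⟩ := exists_parent ha'
        have h1 : |x.re - a| ≤ |x.re - a'| + |a' - a| := by
          have : x.re - a = (x.re - a') + (a' - a) := by ring
          rw [this]; exact abs_add_le _ _
        have h2 := r_succ_le k
        have h3 := d_pos k
        have h4 := d_le k
        have h5 := r_pos k
        exact ⟨a, ha, by linarith, by linarith⟩) hp
      refine ⟨min δ1 (r m), lt_min hδ1 hr, fun y z hyz hy => ?_⟩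
      rw [dist_eq_norm, dist_eq_norm] at hyz
      rw [dist_eq_norm] at hy
      rw [dist_eq_norm, dist_eq_norm]
      have hy1 := hy.trans_le (min_le_left _ _)
      have hy2 := hy.trans_le (min_le_right _ _)
      rw [hf y hy1, hf z (by rwa [← hyz]), hf x (by simpa using hδ1), F_succ, F_succ, F_succ]
      have key : ∀ w, ‖w - x‖ < r m →
          99 / 100 * (‖D‖ * ‖g m w - g m x‖) ≤ ‖F m (g m w) - F m (g m x)‖ ∧
          ‖F m (g m w) - F m (g m x)‖ ≤ 101 / 100 * (‖D‖ * ‖g m w - g m x‖) := by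
        intro w hw
        have h1 := g_upper m w x
        have h2 : ‖g m w - g m x‖ ≤ 101 / 100 * r m := by linarith
        refine ratio_of (hD (g m w) (by linarith)) ?_
        have h3 := S_nonneg m
        have h4 := S_mul_r m
        have h5 : S m * ‖g m w - g m x‖ ≤ S m * (101 / 100 * r m) := by gcongr
        nlinarith
      have h1 := (key y hy2).2
      have h2 := (key z (by rwa [← hyz])).1
      have h3 := g_upper m y x
      have h4 := g_lower m z x
      rw [← hyz] at h4
      have h5 : ‖D‖ * ‖g m y - g m x‖ ≤ ‖D‖ * (101 / 100 * ‖y - x‖) := by gcongr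
      have h6 : ‖D‖ * (99 / 100 * ‖y - x‖) ≤ ‖D‖ * ‖g m z - g m x‖ := by gcongr
      have h7 : 0 ≤ ‖D‖ * ‖y - x‖ := by positivity
      nlinarith

end Pool.Agent.X148.QC
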